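import Pool.Agent.HS37.HK.Mean

/-!
# Bessel's inequality, first moments and the sup norm, for mean values along an ultrafilter
-/

set_option autoImplicit false

namespace Pool.Agent.HS37.HK

open Complex Filter Topology ComplexConjugate Pool.Agent.H341R2 Pool.Agent.W540.BE
open Pool.Agent.W353.L1 (Mf Mf_pow Mf_abs Mf_add Mf_const_mul Mf_close cos_pow_expand)

section
variable {P : Type*} {N : P → ℕ} {𝒰 : Ultrafilter ℝ}

theorem EP_fin (hN : NormSys N) (S : Finset P) (r : P → ℝ) (hr : ∀ p, p ∉ S → r p = 0) {ε : ℝ}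
    (hε : 0 < ε) : |EP N ε r| ≤ ∑ p ∈ S, |r p| := by
  rw [EP, tsum_eq_sum (s := S) fun p hp => by rw [hr p hp, zero_mul]]
  refine (Finset.abs_sum_le_sum_abs _ _).trans (Finset.sum_le_sum fun p _ => ?_)
  have hp1 : (1 : ℝ) ≤ N p := by
    have := hN.two_le p
    exact_mod_cast (by omega : 1 ≤ N p)
  have h1 : (N p : ℝ) ^ (-(1 + ε)) ≤ 1 := Real.rpow_le_one_of_one_le_of_nonpos hp1 (by linarith)
  rw [abs_mul, abs_of_nonneg (wP_nonneg ε p)]
  exact mul_le_of_le_one_right (abs_nonneg _) h1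

/-- a function that is bounded outside of a finite set is bounded -/
theorem Bd.of_fin {f g : P → ℝ} (hf : Bd f) (h : {p | f p ≠ g p}.Finite) : Bd g := by
  classical
  obtain ⟨B, hB⟩ := hf
  refine ⟨|B| + ∑ p ∈ h.toFinset, |g p|, fun p => ?_⟩
  by_cases hp : f p = g p
  · rw [← hp]
    have := Finset.sum_nonneg (s := h.toFinset) fun p _ => abs_nonneg (g p)
    linarith [hB p, le_abs_self B]
  · have h1 := Finset.single_le_sum (s := h.toFinset) (f := fun p => |g p|)
      (fun p _ => abs_nonneg _) (h.mem_toFinset.2 hp)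
    have h2 := abs_nonneg B
    linarith

theorem Av.congr_fin (hS : Sys N 𝒰) {f g : P → ℝ} {y : ℝ} (hf : Bd f)
    (hfin : {p | f p ≠ g p}.Finite) (h : Av N 𝒰 f y) : Av N 𝒰 g y := by
  classical
  have hg : Bd g := hf.of_fin hfin
  have h0 : Av N 𝒰 (fun p => g p - f p) 0 := by
    set C : ℝ := ∑ p ∈ hfin.toFinset, |g p - f p| with hC
    have hlim : Tendsto (fun ε : ℝ => C / lam ε) (𝓝[>] 0) (𝓝 0) :=
      tendsto_const_nhds.div_atTop lam_tendsto
    refine squeeze_zero_norm' ?_ (hlim.mono_left hS.le)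
    filter_upwards [hS.pos] with ε h1
    rw [Real.norm_eq_abs, abs_div, abs_of_pos h1.2]
    refine div_le_div_of_nonneg_right ?_ h1.2.le
    refine EP_fin hS.norm hfin.toFinset _ (fun p hp => ?_) h1.1
    rw [Set.Finite.mem_toFinset, Set.mem_ofPred_eq, not_not] at hp
    rw [hp, sub_self]
  exact (Av.add hS hf (hg.sub hf) h h0).congr (fun p => by ring) (by ring)

theorem AvC.congr_fin (hS : Sys N 𝒰) {f g : P → ℂ} {y : ℂ} (hf : BdC f)
    (hfin : {p | f p ≠ g p}.Finite) (h : AvC N 𝒰 f y) : AvC N 𝒰 g y :=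
  ⟨Av.congr_fin hS hf.re (hfin.subset fun p hp => fun h => hp (by simp only [h])) h.1,
    Av.congr_fin hS hf.im (hfin.subset fun p hp => fun h => hp (by simp only [h])) h.2⟩

theorem norm_sq_re (z : ℂ) : ‖z‖ ^ 2 = (z * conj z).re := by
  rw [Complex.mul_conj, Complex.normSq_eq_norm_sq, Complex.ofReal_re]

theorem norm_sq_sum {κ : Type*} (K : Finset κ) (c : κ → ℝ) (z : κ → ℂ) :
    ‖∑ k ∈ K, (c k : ℂ) * z k‖ ^ 2 = ∑ k ∈ K, ∑ l ∈ K, (c k * c l) * (z k * conj (z l)).re := by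
  rw [norm_sq_re, map_sum, Finset.sum_mul_sum, Complex.re_sum]
  refine Finset.sum_congr rfl fun k _ => ?_
  rw [Complex.re_sum]
  refine Finset.sum_congr rfl fun l _ => ?_
  have h2 : (c k : ℂ) * z k * conj ((c l : ℂ) * z l) = ((c k * c l : ℝ) : ℂ) *
      (z k * conj (z l)) := by
    rw [map_mul, Complex.conj_ofReal]
    push_cast
    ring
  rw [h2, Complex.re_ofReal_mul]

/-- **Bessel's inequality** -/
theorem bessel (hS : Sys N 𝒰) {κ : Type*} (K : Finset κ) {T : P → ℂ} {s : ℝ} (hs : 0 ≤ s)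
    (hT : ∀ p, ‖T p‖ ≤ s) {χ : κ → P → ℂ} (hχ : ∀ k ∈ K, ∀ p, ‖χ k p‖ ≤ 1)
    (horth : ∀ k ∈ K, ∀ l ∈ K, k ≠ l → Av N 𝒰 (fun p => (χ k p * conj (χ l p)).re) 0)
    {x : κ → ℝ} (hx : ∀ k ∈ K, Av N 𝒰 (fun p => (T p * χ k p).re) (x k)) :
    ∑ k ∈ K, x k ^ 2 ≤ s ^ 2 := by
  classical
  set S := ∑ k ∈ K, x k ^ 2 with hSdef
  have hS0 : 0 ≤ S := Finset.sum_nonneg fun k _ => sq_nonneg _
  rcases hS0.eq_or_lt with h0 | h0
  · rw [← h0]; exact sq_nonneg s
  have hbd : ∀ k ∈ K, BdC (χ k) := fun k hk => ⟨1, hχ k hk⟩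
  have hTb : BdC T := ⟨s, hT⟩
  -- the mean values of the squares
  have hsq : ∀ k, ∃ y : ℝ, k ∈ K → Av N 𝒰 (fun p => (χ k p * conj (χ k p)).re) y ∧ y ≤ 1 := by
    intro k
    by_cases hk : k ∈ K
    · obtain ⟨y, hy⟩ := hS.exists ((hbd k hk).mul (hbd k hk).conj).re
      refine ⟨y, fun _ => ⟨hy, ?_⟩⟩
      refine Av.mono hS ((hbd k hk).mul (hbd k hk).conj).re (Bd.const 1) hy (Av.const hS 1)
        fun p => ?_
      rw [← norm_sq_re]
      exact pow_le_one₀ (norm_nonneg _) (hχ k hk p)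
    · exact ⟨0, fun h => absurd h hk⟩
  choose d hd using hsq
  set g : P → ℂ := fun p => ∑ k ∈ K, (x k : ℂ) * χ k p with hg
  have hgb : BdC g := BdC.sum K fun k hk => (BdC.const _).mul (hbd k hk)
  have hgsq : Av N 𝒰 (fun p => ‖g p‖ ^ 2) (∑ k ∈ K, ∑ l ∈ K, if k = l then x k ^ 2 * d k else 0) := by
    have h1 : ∀ k ∈ K, Av N 𝒰 (fun p => ∑ l ∈ K, (x k * x l) * (χ k p * conj (χ l p)).re)
        (∑ l ∈ K, if k = l then x k ^ 2 * d k else 0) := by
      intro k hk
      refine Av.sum hS K (fun l hl => ((hbd k hk).mul (hbd l hl).conj).re.const_mul _)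
        fun l hl => ?_
      split_ifs with hkl
      · subst hkl
        exact ((hd k hk).1.const_mul (x k * x k)).congr (fun p => rfl) (by ring)
      · exact ((horth k hk l hl hkl).const_mul (x k * x l)).congr (fun p => rfl) (by ring)
    refine (Av.sum hS K (fun k hk => Bd.sum K fun l hl =>
      ((hbd k hk).mul (hbd l hl).conj).re.const_mul _) h1).congr (fun p => ?_) rfl
    rw [hg, norm_sq_sum]
  have hval : (∑ k ∈ K, ∑ l ∈ K, if k = l then x k ^ 2 * d k else 0) ≤ S := by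
    refine Finset.sum_le_sum fun k hk => ?_
    rw [Finset.sum_ite_eq, if_pos hk]
    exact mul_le_of_le_one_right (sq_nonneg _) (hd k hk).2
  have hlin : Av N 𝒰 (fun p => (T p * g p).re) S := by
    refine (Av.sum hS K (fun k hk => ((hTb.mul (hbd k hk)).re.const_mul (x k)))
      fun k hk => (hx k hk).const_mul (x k)).congr (fun p => ?_) ?_
    · rw [hg]
      simp only
      rw [Finset.mul_sum, Complex.re_sum]
      refine Finset.sum_congr rfl fun k _ => ?_
      rw [← Complex.re_ofReal_mul]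
      congr 1
      ring
    · rw [hSdef]
      exact Finset.sum_congr rfl fun k _ => by ring
  set a : ℝ := Real.sqrt S with ha
  have ha0 : 0 < a := Real.sqrt_pos.2 h0
  have haa : a * a = S := Real.mul_self_sqrt hS0
  have hgn : Bd fun p => ‖g p‖ ^ 2 := by
    obtain ⟨B, hB⟩ := hgb
    refine ⟨B ^ 2, fun p => ?_⟩
    rw [abs_of_nonneg (sq_nonneg _)]
    exact pow_le_pow_left₀ (norm_nonneg _) (hB p) 2
  have hmaj := Av.add hS (hgn.const_mul (s / (2 * a))) (Bd.const (s * a / 2))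
    (hgsq.const_mul (s / (2 * a))) (Av.const hS (s * a / 2))
  have hle := Av.mono hS (hTb.mul hgb).re ((hgn.const_mul (s / (2 * a))).add
    (Bd.const (s * a / 2))) hlin hmaj fun p => by
      have h1 : (T p * g p).re ≤ s * ‖g p‖ := by
        refine (le_abs_self _).trans ((Complex.abs_re_le_norm _).trans ?_)
        rw [norm_mul]
        exact mul_le_mul_of_nonneg_right (hT p) (norm_nonneg _)
      have h2 : s / (2 * a) * ‖g p‖ ^ 2 + s * a / 2 - s * ‖g p‖ =
          s / (2 * a) * (‖g p‖ - a) ^ 2 := by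
        field_simp
        ring
      have h3 : 0 ≤ s / (2 * a) * (‖g p‖ - a) ^ 2 := by positivity
      linarith
  have h4 : s / (2 * a) * (∑ k ∈ K, ∑ l ∈ K, if k = l then x k ^ 2 * d k else 0) ≤
      s / (2 * a) * S := mul_le_mul_of_nonneg_left hval (by positivity)
  have h5 : s / (2 * a) * S + s * a / 2 = s * a := by
    rw [← haa]
    field_simp
    ring
  have h6 : S ≤ s * a := by linarith
  have h7 : a ≤ s := by
    rw [← haa] at h6
    exact le_of_mul_le_mul_right h6 ha0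
  calc S = a * a := haa.symm
    _ ≤ s * s := mul_le_mul h7 h7 ha0.le hs
    _ = s ^ 2 := by ring

/-- the powers of the real part -/
theorem mean_pow (hS : Sys N 𝒰) {χ : P → ℂ} (hχ : ∀ p, ‖χ p‖ = 1)
    (hZ : ∀ m : ℤ, m ≠ 0 → Av N 𝒰 (fun p => (χ p ^ m).re) 0) (n : ℕ) :
    Av N 𝒰 (fun p => (χ p).re ^ n) (Mf fun x => x ^ n) := by
  have hb : ∀ m : ℤ, Bd fun p => (χ p ^ m).re := fun m =>
    Bd.of_norm_re (B := 1) fun p => by rw [norm_zpow, hχ, one_zpow]
  have h1 : Av N 𝒰 (fun p => ∑ k ∈ Finset.range (n + 1),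
      Pool.Agent.W353.L1.cc n k * (χ p ^ (2 * (k : ℤ) - n)).re)
      (∑ k ∈ Finset.range (n + 1), if 2 * (k : ℤ) - n = 0 then Pool.Agent.W353.L1.cc n k else 0) := by
    refine Av.sum hS _ (fun k _ => (hb _).const_mul _) fun k _ => ?_
    split_ifs with h
    · rw [h]
      exact (Av.const hS (Pool.Agent.W353.L1.cc n k)).congr (fun p => by simp) rfl
    · exact ((hZ _ h).const_mul (Pool.Agent.W353.L1.cc n k)).congr (fun _ => rfl) (mul_zero _)
  refine h1.congr (fun p => ?_) (Mf_pow n).symm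
  rw [cos_pow_expand (χ p) (hχ p) n, Complex.re_sum]
  refine Finset.sum_congr rfl fun k _ => ?_
  rw [Complex.re_ofReal_mul]

theorem mean_poly (hS : Sys N 𝒰) {χ : P → ℂ} (hχ : ∀ p, ‖χ p‖ = 1)
    (hZ : ∀ m : ℤ, m ≠ 0 → Av N 𝒰 (fun p => (χ p ^ m).re) 0) (Q : Polynomial ℝ) :
    (Bd fun p => Q.eval (χ p).re) ∧ Av N 𝒰 (fun p => Q.eval (χ p).re) (Mf fun x => Q.eval x) := by
  have hb : Bd fun p => (χ p).re := Bd.of_norm_re (B := 1) fun p => (hχ p).le
  induction Q using Polynomial.induction_on' with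
  | add A B hA hB =>
    obtain ⟨C, hC⟩ := hA.1.add hB.1
    refine ⟨⟨C, fun p => ?_⟩, ?_⟩
    · simp only [Polynomial.eval_add]
      exact hC p
    · refine (Av.add hS hA.1 hB.1 hA.2 hB.2).congr (fun p => by rw [Polynomial.eval_add]) ?_
      rw [← Mf_add A.continuous B.continuous]
      simp only [Polynomial.eval_add]
  | monomial n a =>
    obtain ⟨C, hC⟩ := (hb.pow n).const_mul a
    refine ⟨⟨C, fun p => ?_⟩, ?_⟩
    · simp only [Polynomial.eval_monomial]
      exact hC p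
    · refine ((mean_pow hS hχ hZ n).const_mul a).congr
        (fun p => by rw [Polynomial.eval_monomial]) ?_
      rw [← Mf_const_mul]
      simp only [Polynomial.eval_monomial]

/-- **the first moment of a character of infinite order** -/
theorem mean_abs (hS : Sys N 𝒰) {χ : P → ℂ} (hχ : ∀ p, ‖χ p‖ = 1)
    (hZ : ∀ m : ℤ, m ≠ 0 → Av N 𝒰 (fun p => (χ p ^ m).re) 0) {y : ℝ}
    (hy : Av N 𝒰 (fun p => |(χ p).re|) y) : y ≤ 2 / Real.pi := by
  have hb : Bd fun p => (χ p).re := Bd.of_norm_re (B := 1) fun p => (hχ p).le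
  refine le_of_forall_pos_le_add fun η hη => ?_
  obtain ⟨Q, hQ⟩ := exists_polynomial_near_of_continuousOn (-1) 1 (fun x : ℝ => |x|)
    continuous_abs.continuousOn (η / 2) (by positivity)
  obtain ⟨h1, h2⟩ := mean_poly hS hχ hZ Q
  have h3 := Av.mono hS hb.abs (h1.add (Bd.const (η / 2))) hy
    (Av.add hS h1 (Bd.const (η / 2)) h2 (Av.const hS (η / 2))) fun p => by
      have h4 : (χ p).re ∈ Set.Icc (-1 : ℝ) 1 := by
        have h5 := (Complex.abs_re_le_norm (χ p)).trans (hχ p).le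
        exact abs_le.1 h5
      have h6 := hQ _ h4
      have h7 := (abs_lt.1 h6).1
      linarith
  have h4 := Mf_close Q.continuous continuous_abs (η := η / 2) fun x hx => (hQ x hx).le
  have h5 := (abs_le.1 h4).2
  have h6 : (Mf fun x : ℝ => |x|) = 2 / Real.pi := Mf_abs
  linarith

end

end Pool.Agent.HS37.HK
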