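import Pool.Agent.HS37.HK.Abs

/-!
# Complex logarithms of Euler products at a point of the edge
-/

set_option autoImplicit false

namespace Pool.Agent.HS37.HK

open Complex Filter Topology ComplexConjugate Pool.Agent.H341R2 Pool.Agent.W540.BE Polynomial

/-- a continuous logarithm of a function with a nonzero limit is bounded -/
theorem branch {G : ℝ → ℂ} {u0 : ℂ} (hu0 : u0 ≠ 0) {δ : ℝ} (hδ : 0 < δ)
    (hG : ContinuousOn G (Set.Ioo 0 δ))
    (hu : Tendsto (fun ε : ℝ => cexp (G ε)) (𝓝[>] 0) (𝓝 u0)) :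
    ∃ C : ℝ, ∀ᶠ ε : ℝ in 𝓝[>] 0, ‖G ε‖ ≤ C := by
  set H : ℝ → ℂ := fun ε => G ε - Complex.log u0 with hH
  have hHu : Tendsto (fun ε : ℝ => cexp (H ε)) (𝓝[>] 0) (𝓝 1) := by
    have h1 := hu.div_const u0
    rw [div_self hu0] at h1
    refine h1.congr fun ε => ?_
    rw [hH]
    simp only
    rw [Complex.exp_sub, Complex.exp_log hu0]
  have h2 : ∀ᶠ ε : ℝ in 𝓝[>] 0, ‖cexp (H ε) - 1‖ < 1 / 2 := by
    have := Metric.tendsto_nhds.1 hHu (1 / 2) (by norm_num)
    simpa [dist_eq_norm] using this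
  obtain ⟨δ', hδ', hs⟩ := mem_nhdsGT_iff_exists_Ioo_subset.1 h2
  have hδ'0 : (0 : ℝ) < δ' := hδ'
  set δ1 := min δ δ' with hδ1
  have hδ10 : 0 < δ1 := lt_min hδ hδ'0
  have hsub : ∀ ε ∈ Set.Ioo (0 : ℝ) δ1, ‖cexp (H ε) - 1‖ < 1 / 2 := fun ε hε =>
    hs ⟨hε.1, hε.2.trans_le (min_le_right _ _)⟩
  have hslit : ∀ ε ∈ Set.Ioo (0 : ℝ) δ1, cexp (H ε) ∈ Complex.slitPlane := by
    intro ε hε
    left
    have h3 := (Complex.abs_re_le_norm (cexp (H ε) - 1)).trans_lt (hsub ε hε)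
    have h4 := (abs_lt.1 h3).1
    rw [Complex.sub_re, Complex.one_re] at h4
    linarith
  have hHc : ContinuousOn H (Set.Ioo 0 δ1) :=
    (hG.mono (Set.Ioo_subset_Ioo_right (min_le_left _ _))).sub continuousOn_const
  set l : ℝ → ℂ := fun ε => Complex.log (cexp (H ε)) with hl
  have hlc : ContinuousOn l (Set.Ioo 0 δ1) := by
    intro ε hε
    exact ((hHc ε hε).cexp).clog (hslit ε hε)
  have hint : ∀ ε : ℝ, ∃ n : ℤ, H ε = l ε + n * (2 * Real.pi * I) := by
    intro ε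
    have h3 : cexp (H ε) = cexp (l ε) := (Complex.exp_log (Complex.exp_ne_zero _)).symm
    obtain ⟨n, hn⟩ := Complex.exp_eq_exp_iff_exists_int.1 h3
    exact ⟨n, hn⟩
  choose n hn using hint
  set φ : ℝ → ℝ := fun ε => (H ε - l ε).im / (2 * Real.pi) with hφ
  have hpi := Real.pi_pos
  have hφn : ∀ ε, φ ε = n ε := by
    intro ε
    rw [hφ]
    simp only
    have h3 : H ε - l ε = n ε * (2 * Real.pi * I) := by rw [hn ε]; ring
    rw [h3]
    have h4 : ((n ε : ℂ) * (2 * Real.pi * I)).im = n ε * (2 * Real.pi) := by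
      simp
    rw [h4, mul_div_assoc, div_self (by positivity), mul_one]
  have hφc : ContinuousOn φ (Set.Ioo 0 δ1) :=
    (Complex.continuous_im.comp_continuousOn (hHc.sub hlc)).div_const _
  have hconst : ∀ x ∈ Set.Ioo (0 : ℝ) δ1, ∀ y ∈ Set.Ioo (0 : ℝ) δ1, n x ≤ n y := by
    intro x hx y hy
    by_contra hlt
    push Not at hlt
    have h3 : (n y : ℝ) + 1 / 2 ∈ Set.Icc (φ y) (φ x) := by
      rw [hφn, hφn]
      constructor
      · linarith
      · have : (n y : ℝ) + 1 ≤ n x := by exact_mod_cast hlt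
        linarith
    obtain ⟨z, -, hz⟩ := (isPreconnected_Ioo (a := (0 : ℝ)) (b := δ1)).intermediate_value hy hx hφc h3
    rw [hφn] at hz
    have h4 : ((2 * n z : ℤ) : ℝ) = ((2 * n y + 1 : ℤ) : ℝ) := by
      push_cast
      linarith
    have h5 : 2 * n z = 2 * n y + 1 := by exact_mod_cast h4
    omega
  have hx0 : δ1 / 2 ∈ Set.Ioo (0 : ℝ) δ1 := ⟨by positivity, by linarith⟩
  have hl1 : Tendsto (fun ε : ℝ => ‖l ε‖) (𝓝[>] 0) (𝓝 0) := by
    have h3 := (hHu.clog (by simp)).norm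
    rwa [Complex.log_one, norm_zero] at h3
  refine ⟨‖Complex.log u0‖ + (1 + ‖(n (δ1 / 2) : ℂ) * (2 * Real.pi * I)‖), ?_⟩
  filter_upwards [hl1.eventually_lt_const one_pos, Ioo_mem_nhdsGT hδ10] with ε h4 h5
  have h6 : n ε = n (δ1 / 2) := le_antisymm (hconst _ h5 _ hx0) (hconst _ hx0 _ h5)
  have h7 : G ε = Complex.log u0 + (l ε + n (δ1 / 2) * (2 * Real.pi * I)) := by
    have h8 := hn ε
    rw [h6] at h8
    rw [← h8, hH]
    ring
  rw [h7]
  exact (norm_add_le _ _).trans (add_le_add le_rfl ((norm_add_le _ _).trans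
    (add_le_add h4.le le_rfl)))

section
variable {P : Type*} {N : P → ℕ}

/-- continuity of a sum over primes -/
theorem cont_sum (hN : NormSys N) {f : ℝ → P → ℂ} (hf : ∀ p, ContinuousOn (fun ε => f ε p) (Set.Ioi 0))
    {C : ℝ} (hb : ∀ ε : ℝ, 0 < ε → ∀ p, ‖f ε p‖ ≤ C * (N p : ℝ) ^ (-(1 + ε))) :
    ContinuousOn (fun ε => ∑' p, f ε p) (Set.Ioi 0) := by
  intro ε0 hε0
  have hε0' : (0 : ℝ) < ε0 := hε0
  have h1 : ContinuousOn (fun ε => ∑' p, f ε p) (Set.Ioi (ε0 / 2)) := by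
    refine continuousOn_tsum (u := fun p => |C| * (N p : ℝ) ^ (-(1 + ε0 / 2)))
      (fun p => (hf p).mono (Set.Ioi_subset_Ioi (by linarith)))
      ((hN.summable _ (by linarith)).mul_left _) fun p ε hε => ?_
    have hε' : ε0 / 2 < ε := hε
    refine (hb ε (by linarith) p).trans ?_
    have hp1 : (1 : ℝ) ≤ N p := by
      have := hN.two_le p
      exact_mod_cast (by omega : 1 ≤ N p)
    calc C * (N p : ℝ) ^ (-(1 + ε)) ≤ |C| * (N p : ℝ) ^ (-(1 + ε)) :=
          mul_le_mul_of_nonneg_right (le_abs_self C) (by positivity)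
      _ ≤ _ := mul_le_mul_of_nonneg_left
          (Real.rpow_le_rpow_of_exponent_le hp1 (by linarith)) (abs_nonneg _)
  exact ((h1 ε0 (by simp; linarith)).continuousAt (Ioi_mem_nhds (by linarith))).continuousWithinAt

theorem cont_wt (hN : NormSys N) (p : P) :
    Continuous fun ε : ℝ => ((N p : ℝ) ^ (-(1 + ε)) : ℝ) := by
  have hp : (0 : ℝ) < N p := by
    have := hN.two_le p
    exact_mod_cast (by omega : 0 < N p)
  exact continuous_const.rpow (by fun_prop) fun ε => Or.inl hp.ne'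

/-- the complex sum -/
noncomputable def CS (N : P → ℕ) (a : P → ℂ) (ε : ℝ) : ℂ :=
  ∑' p, a p * ((N p : ℝ) ^ (-(1 + ε)) : ℝ)

theorem summable_CS (hN : NormSys N) {a : P → ℂ} {K : ℝ} (ha : ∀ p, ‖a p‖ ≤ K) {ε : ℝ}
    (hε : 0 < ε) : Summable fun p => a p * ((N p : ℝ) ^ (-(1 + ε)) : ℝ) := by
  refine Summable.of_norm_bounded
    ((hN.summable (-(1 + ε)) (by linarith)).mul_left K) fun p => ?_
  rw [norm_mul, Complex.norm_real, Real.norm_eq_abs, abs_of_nonneg (wP_nonneg ε p)]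
  exact mul_le_mul_of_nonneg_right (ha p) (wP_nonneg ε p)

theorem CS_re (hN : NormSys N) {a : P → ℂ} {K : ℝ} (ha : ∀ p, ‖a p‖ ≤ K) {ε : ℝ}
    (hε : 0 < ε) : (CS N a ε).re = EP N ε fun p => (a p).re := by
  unfold CS EP
  rw [Complex.re_tsum (summable_CS hN ha hε)]
  exact tsum_congr fun p => by rw [Complex.re_mul_ofReal]

theorem CS_im (hN : NormSys N) {a : P → ℂ} {K : ℝ} (ha : ∀ p, ‖a p‖ ≤ K) {ε : ℝ}
    (hε : 0 < ε) : (CS N a ε).im = EP N ε fun p => (a p).im := by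
  unfold CS EP
  rw [Complex.im_tsum (summable_CS hN ha hε)]
  exact tsum_congr fun p => by rw [Complex.im_mul_ofReal]

/-- **The complex logarithm at a point of the edge.** -/
theorem sizeC (hN : NormSys N) {Good : P → Prop}
    (hfin : {p | ¬ Good p}.Finite) (B : P → ℂ[X]) (ρ : ℂ)
    (hB : ∀ p, ¬ Good p → (B p).eval (((N p : ℕ) : ℂ) ^ (-ρ)) ≠ 0)
    (a : P → ℂ) {K : ℝ} (ha : ∀ p, ‖a p‖ ≤ K) (ha0 : ∀ p, ¬ Good p → a p = 0)
    (G : ℝ → P → ℂ) {C : ℝ}
    (hGc : ∀ p, Good p → ContinuousOn (fun ε => G ε p) (Set.Ioi 0))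
    (hG : ∀ ε : ℝ, 0 < ε → ∀ p, Good p →
      ‖G ε p - a p * ((N p : ℝ) ^ (-(1 + ε)) : ℝ)‖ ≤ C * (N p : ℝ) ^ (-2 : ℝ))
    (hG1 : ∀ ε : ℝ, 0 < ε → ∀ p, Good p → ‖G ε p‖ ≤ C * (N p : ℝ) ^ (-(1 + ε)))
    {L : ℝ → ℂ}
    (hL : ∀ ε : ℝ, 0 < ε → ∀ c : ℝ, c = c → (open Classical in L ε = ∏' p : P, if Good p then
      cexp (G ε p) else ((B p).eval (((N p : ℕ) : ℂ) ^ (-(ρ + ε))))⁻¹))
    {Λ : ℂ → ℂ} (hΛ : MeromorphicAt Λ ρ) {m : ℤ} (hm : meromorphicOrderAt Λ ρ = m)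
    (hΛL : ∀ᶠ ε : ℝ in 𝓝[>] 0, Λ (ρ + ε) = L ε) :
    ∃ C' : ℝ, ∀ᶠ ε : ℝ in 𝓝[>] 0, ‖CS N a ε - m * (Real.log ε : ℂ)‖ ≤ C' := by
  classical
  set S := hfin.toFinset with hS
  obtain ⟨g, hg, hg0, hgΛ⟩ := (meromorphicOrderAt_eq_int_iff hΛ).1 hm
  have hpath : Tendsto (fun ε : ℝ => ρ + ε) (𝓝[>] 0) (𝓝[≠] ρ) := by
    rw [tendsto_nhdsWithin_iff]
    refine ⟨path_tendsto' ρ, ?_⟩
    filter_upwards [self_mem_nhdsWithin] with ε hε
    have hε' : (0 : ℝ) < ε := hε
    simp only [Set.mem_compl_iff, Set.mem_singleton_iff, add_eq_left]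
    exact_mod_cast hε'.ne'
  -- the good part
  set f : ℝ → P → ℂ := fun ε p => if Good p then G ε p else 0 with hf
  have hfc : ContinuousOn (fun ε => ∑' p, f ε p) (Set.Ioi 0) := by
    refine cont_sum hN (C := |C|) (fun p => ?_) fun ε hε p => ?_
    · by_cases hp : Good p
      · simp only [hf, if_pos hp]
        exact hGc p hp
      · simp only [hf, if_neg hp]
        exact continuousOn_const
    · rw [hf]
      simp only
      split_ifs with hp
      · exact (hG1 ε hε p hp).trans (mul_le_mul_of_nonneg_right (le_abs_self C) (by positivity))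
      · rw [norm_zero]
        positivity
  have hfs : ∀ ε : ℝ, 0 < ε → (Summable (f ε)) ∧ ‖(∑' p, f ε p) - CS N a ε‖ ≤
      |C| * ∑' p, (N p : ℝ) ^ (-2 : ℝ) := by
    intro ε hε
    have hsa := summable_CS hN ha hε
    have hbd : ∀ p, ‖f ε p - a p * ((N p : ℝ) ^ (-(1 + ε)) : ℝ)‖ ≤
        |C| * (N p : ℝ) ^ (-2 : ℝ) := by
      intro p
      rw [hf]
      simp only
      split_ifs with hg
      · exact (hG ε hε p hg).trans (mul_le_mul_of_nonneg_right (le_abs_self C) (by positivity))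
      · rw [ha0 p hg]
        simp
        positivity
    have hsd : Summable fun p : P => f ε p - a p * ((N p : ℝ) ^ (-(1 + ε)) : ℝ) :=
      Summable.of_norm_bounded ((hN.summable (-2) (by norm_num)).mul_left |C|) hbd
    have hs : Summable (f ε) := by
      have := hsd.add hsa
      simpa using this
    refine ⟨hs, ?_⟩
    unfold CS
    rw [← hs.tsum_sub hsa, ← tsum_mul_left]
    exact tsum_of_norm_bounded ((hN.summable (-2) (by norm_num)).mul_left |C|).hasSum hbd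
  -- the bad part
  set b : ℝ → ℂ := fun ε => ∏ p ∈ S, ((B p).eval (((N p : ℕ) : ℂ) ^ (-(ρ + ε))))⁻¹ with hb
  set b0 : ℂ := ∏ p ∈ S, ((B p).eval (((N p : ℕ) : ℂ) ^ (-ρ)))⁻¹ with hb0
  have hb0ne : b0 ≠ 0 := Finset.prod_ne_zero_iff.2 fun p hp =>
    inv_ne_zero (hB p (hfin.mem_toFinset.1 hp))
  have hbt : Tendsto b (𝓝[>] 0) (𝓝 b0) := by
    refine tendsto_finsetProd S fun p hp => ?_
    have hpc : ((N p : ℕ) : ℂ) ≠ 0 := by
      have := hN.two_le p
      exact_mod_cast (by omega : N p ≠ 0)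
    have h2 : ContinuousAt (fun s : ℂ => ((N p : ℕ) : ℂ) ^ (-s)) ρ :=
      (continuousAt_const_cpow hpc).comp continuousAt_neg
    have h3 : ContinuousAt (fun s : ℂ => (B p).eval (((N p : ℕ) : ℂ) ^ (-s))) ρ :=
      (B p).continuous.continuousAt.comp h2
    exact (h3.tendsto.comp (path_tendsto' ρ)).inv₀ (hB p (hfin.mem_toFinset.1 hp))
  have hLeq : ∀ ε : ℝ, 0 < ε → L ε = b ε * cexp (∑' p, f ε p) := by
    intro ε hε
    have h1 := hL ε hε 0 rfl
    rw [h1]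
    exact tprod_splitP hfin (G ε) (fun p => ((B p).eval (((N p : ℕ) : ℂ) ^ (-(ρ + ε))))⁻¹)
      (hfs ε hε).1
  -- the branch
  obtain ⟨C1, hC1⟩ := branch (G := fun ε => (∑' p, f ε p) - m * (Real.log ε : ℂ))
    (u0 := g ρ / b0) (div_ne_zero hg0 hb0ne) one_pos
    (by
      refine (hfc.mono Set.Ioo_subset_Ioi_self).sub (continuousOn_const.mul ?_)
      refine Complex.continuous_ofReal.comp_continuousOn ?_
      exact Real.continuousOn_log.mono fun x hx => by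
        simp only [Set.mem_compl_iff, Set.mem_singleton_iff]
        exact hx.1.ne')
    (by
      have h1 : Tendsto (fun ε : ℝ => g (ρ + ε) / b ε) (𝓝[>] 0) (𝓝 (g ρ / b0)) :=
        (hg.continuousAt.tendsto.comp (path_tendsto' ρ)).div hbt hb0ne
      refine h1.congr' ?_
      filter_upwards [hpath.eventually hgΛ, hΛL, hbt.eventually_ne hb0ne, self_mem_nhdsWithin]
        with ε h2 h3 h4 h5
      have hε : (0 : ℝ) < ε := h5
      have hεc : (ε : ℂ) ≠ 0 := by exact_mod_cast hε.ne'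
      have hz : (ρ + ε - ρ : ℂ) = ε := by ring
      rw [hz, smul_eq_mul, h3, hLeq ε hε] at h2
      have h6 : cexp ((m : ℂ) * (Real.log ε : ℂ)) = (ε : ℂ) ^ m := by
        rw [Complex.exp_int_mul, ← Complex.ofReal_exp, Real.exp_log hε]
      rw [Complex.exp_sub, h6, div_eq_div_iff h4 (zpow_ne_zero _ hεc)]
      linear_combination -h2)
  refine ⟨C1 + |C| * ∑' p, (N p : ℝ) ^ (-2 : ℝ), ?_⟩
  filter_upwards [hC1, self_mem_nhdsWithin] with ε h1 h2
  have hε : (0 : ℝ) < ε := h2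
  have h3 : CS N a ε - m * (Real.log ε : ℂ) = ((∑' p, f ε p) - m * (Real.log ε : ℂ)) -
      ((∑' p, f ε p) - CS N a ε) := by ring
  rw [h3]
  exact (norm_sub_le _ _).trans (add_le_add h1 (hfs ε hε).2)

/-- mean values from the logarithm -/
theorem mean_of_log {𝒰 : Ultrafilter ℝ} (hS : Sys N 𝒰) {a : P → ℂ} {K : ℝ} (ha : ∀ p, ‖a p‖ ≤ K)
    {m : ℤ} {C : ℝ} (h : ∀ᶠ ε : ℝ in 𝓝[>] 0, ‖CS N a ε - m * (Real.log ε : ℂ)‖ ≤ C) :
    AvC N 𝒰 a (-m) := by
  obtain ⟨C3, hC3⟩ := lam_bounded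
  have key : ∀ (x : ℝ → ℝ) (y D : ℝ), (∀ᶠ ε : ℝ in 𝓝[>] 0, |x ε + y * lam ε| ≤ D) →
      Tendsto (fun ε => x ε / lam ε) (𝓝[>] 0) (𝓝 (-y)) := by
    intro x y D hx
    rw [tendsto_iff_dist_tendsto_zero]
    have hlim : Tendsto (fun ε : ℝ => D / lam ε) (𝓝[>] 0) (𝓝 0) :=
      tendsto_const_nhds.div_atTop lam_tendsto
    refine squeeze_zero' (Filter.Eventually.of_forall fun _ => dist_nonneg) ?_ hlim
    filter_upwards [hx, lam_tendsto.eventually_gt_atTop 0] with ε h1 h2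
    rw [Real.dist_eq, sub_neg_eq_add]
    have : x ε / lam ε + y = (x ε + y * lam ε) / lam ε := by
      field_simp
    rw [this, abs_div, abs_of_pos h2]
    exact div_le_div_of_nonneg_right h1 h2.le
  constructor
  · have h1 : Tendsto (fun ε => EP N ε (fun p => (a p).re) / lam ε) (𝓝[>] 0) (𝓝 (-(m : ℝ))) := by
      refine key _ m (C + |(m : ℝ)| * C3) ?_
      filter_upwards [h, hC3, self_mem_nhdsWithin] with ε h2 h3 h4
      have hε : (0 : ℝ) < ε := h4
      have h5 := (Complex.abs_re_le_norm _).trans h2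
      rw [Complex.sub_re, CS_re hS.norm ha hε] at h5
      have h6 : ((m : ℂ) * (Real.log ε : ℂ)).re = m * Real.log ε := by
        have : (m : ℂ) = ((m : ℝ) : ℂ) := by push_cast; rfl
        rw [this, ← Complex.ofReal_mul, Complex.ofReal_re]
      rw [h6] at h5
      have h7 : EP N ε (fun p => (a p).re) + m * lam ε =
          (EP N ε (fun p => (a p).re) - m * Real.log ε) + m * (lam ε + Real.log ε) := by ring
      rw [h7]
      refine (abs_add_le _ _).trans (add_le_add h5 ?_)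
      rw [abs_mul]
      exact mul_le_mul_of_nonneg_left h3 (abs_nonneg _)
    have h2 : (-(m : ℂ)).re = -(m : ℝ) := by simp
    rw [h2]
    exact h1.mono_left hS.le
  · have h1 : Tendsto (fun ε => EP N ε (fun p => (a p).im) / lam ε) (𝓝[>] 0) (𝓝 (-0)) := by
      refine key _ 0 C ?_
      filter_upwards [h, self_mem_nhdsWithin] with ε h2 h4
      have hε : (0 : ℝ) < ε := h4
      have h5 := (Complex.abs_im_le_norm _).trans h2
      rw [Complex.sub_im, CS_im hS.norm ha hε] at h5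
      have h6 : ((m : ℂ) * (Real.log ε : ℂ)).im = 0 := by
        have : (m : ℂ) = ((m : ℝ) : ℂ) := by push_cast; rfl
        rw [this, ← Complex.ofReal_mul, Complex.ofReal_im]
      rw [h6, sub_zero] at h5
      rw [zero_mul, add_zero]
      exact h5
    have h2 : (-(m : ℂ)).im = -0 := by simp
    rw [h2]
    exact h1.mono_left hS.le

end

end Pool.Agent.HS37.HK
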