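import Pool.Agent.HS37.HK.Twist

/-!
# The number of primes of a number field
-/

set_option autoImplicit false
set_option linter.unusedSectionVars false

namespace Pool.Agent.HS37.HK

open Complex Filter Topology ComplexConjugate Pool.Agent.H341R2 Pool.Agent.W540.BE Polynomial
open NumberField IsDedekindDomain
open Pool.Agent.Y773 (LI)

section
variable {K : Type} [Field K] [NumberField K]

open Classical in
/-- the constant function on the ideals -/
noncomputable def ψ1 : Ideal (𝓞 K) →*₀ ℂ where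
  toFun 𝔞 := if 𝔞 = ⊥ then 0 else 1
  map_zero' := if_pos rfl
  map_one' := if_neg (by rw [Ideal.one_eq_top]; exact top_ne_bot)
  map_mul' 𝔞 𝔟 := by
    by_cases h : 𝔞 = ⊥
    · rw [if_pos h, h, Ideal.bot_mul, if_pos rfl, zero_mul]
    · by_cases h' : 𝔟 = ⊥
      · rw [if_pos h', h', Ideal.mul_bot, if_pos rfl, mul_zero]
      · rw [if_neg h, if_neg h', mul_one, if_neg (show 𝔞 * 𝔟 ≠ ⊥ from mul_ne_zero h h')]

theorem ψ1_apply {𝔞 : Ideal (𝓞 K)} (h : 𝔞 ≠ ⊥) : ψ1 𝔞 = 1 := by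
  classical
  exact if_neg h

theorem ψ1_bot : ψ1 (⊥ : Ideal (𝓞 K)) = 0 := by
  classical
  exact if_pos rfl

theorem ψ1_le (𝔞 : Ideal (𝓞 K)) : ‖ψ1 𝔞‖ ≤ 1 := by
  by_cases h : 𝔞 = ⊥
  · rw [h, ψ1_bot, norm_zero]; exact zero_le_one
  · rw [ψ1_apply h, norm_one]

theorem LI_ψ1 {s : ℂ} (hs : 1 < s.re) : LI (K := K) ψ1 s = dedekindZeta K s := by
  rw [Pool.Agent.H484R2.zeta_eq K hs]
  have h1 := Pool.Agent.H484R2.hasSum_ideals K hs
  have h2 : HasSum (fun 𝔞 : Ideal (𝓞 K) => ψ1 𝔞 * ((Ideal.absNorm 𝔞 : ℕ) : ℂ) ^ (-s))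
      (∑ C : ClassGroup (𝓞 K), (Ideal.absNorm (Pool.Agent.H484R2.rep K C).1 : ℂ) ^ s /
        (Units.torsionOrder K : ℂ) *
        ∑' a, Pool.Agent.H484R2.gJ K (Pool.Agent.H484R2.rep K C).1
          (Pool.Agent.H484R2.rep K C).2 a s) := by
    have hinj : Function.Injective (fun I : {I : Ideal (𝓞 K) // I ≠ ⊥} => I.1) :=
      Subtype.val_injective
    rw [← hinj.hasSum_iff]
    · refine h1.congr_fun fun I => ?_
      simp only [Function.comp_apply]
      rw [ψ1_apply I.2, one_mul]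
    · intro 𝔞 h𝔞
      have : 𝔞 = ⊥ := by
        by_contra h
        exact h𝔞 ⟨⟨𝔞, h⟩, rfl⟩
      rw [this, ψ1_bot, zero_mul]
  exact h2.tsum_eq

theorem EP_one : Tendsto (fun ε : ℝ => (EP (nm (K := K)) ε fun _ => 1) / lam ε) (𝓝[>] 0) (𝓝 1) := by
  classical
  have hval : ∀ v : HeightOneSpectrum (𝓞 K), val ψ1 0 v = 1 := by
    intro v
    unfold val
    rw [ψ1_apply v.ne_bot]
    simp
  have hone : ∀ β ∈ ({(1 : ℂ)} : Multiset ℂ), ‖β‖ ≤ 1 := by
    intro β hβ
    rw [Multiset.mem_singleton] at hβ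
    rw [hβ, norm_one]
  obtain ⟨C, hC⟩ := sizeP (N := nm (K := K)) nsys (Good := fun _ => True) (by simp) (fun _ => 1) 1
    (fun v hv => absurd trivial hv) (fun _ => 1) (K := 1) (fun _ => by simp)
    (fun v hv => absurd trivial hv) (fun ε v => MG {(1 : ℂ)} ((nm v : ℝ) ^ (-(1 + ε)))) (C := 1)
    (fun ε hε v _ => by
      have h1 := nm_small v hε.le
      have h2 := MG_sub hone h1.1 h1.2
      rw [Multiset.sum_singleton, Multiset.card_singleton] at h2
      refine h2.trans ?_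
      rw [Nat.cast_one, one_mul, one_mul]
      exact nm_sq v hε.le)
    (L := fun ε => LI (K := K) ψ1 (1 + (0 : ℝ) * I + ε))
    (fun ε hε => by
      simp only [if_true]
      rw [LI_prod ψ1_le 0 hε]
      refine tprod_congr fun v => ?_
      rw [hval])
  -- the residue
  have h1 : Tendsto (fun ε : ℝ => (ε : ℂ) * LI (K := K) ψ1 (1 + (0 : ℝ) * I + ε)) (𝓝[>] 0)
      (𝓝 (dedekindZeta_residue K : ℂ)) := by
    have h2 := tendsto_sub_one_mul_dedekindZeta_nhdsGT K
    have h3 : Tendsto (fun ε : ℝ => 1 + ε) (𝓝[>] 0) (𝓝[>] 1) := by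
      rw [tendsto_nhdsWithin_iff]
      constructor
      · have : Tendsto (fun ε : ℝ => 1 + ε) (𝓝 0) (𝓝 (1 + 0)) :=
          (continuous_const.add continuous_id).tendsto 0
        rw [add_zero] at this
        exact this.mono_left nhdsWithin_le_nhds
      · filter_upwards [self_mem_nhdsWithin] with ε hε
        have hε' : (0 : ℝ) < ε := hε
        simp only [Set.mem_Ioi]
        linarith
    refine (h2.comp h3).congr' ?_
    filter_upwards [self_mem_nhdsWithin] with ε hε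
    have hε' : (0 : ℝ) < ε := hε
    simp only [Function.comp_apply]
    rw [LI_ψ1 (by simp; exact hε')]
    push_cast
    ring_nf
  have hr : (dedekindZeta_residue K : ℂ) ≠ 0 := by exact_mod_cast dedekindZeta_residue_ne_zero K
  obtain ⟨D, hD⟩ := (h1.norm.log (norm_ne_zero_iff.2 hr)).abs.isBoundedUnder_le
  obtain ⟨C3, hC3⟩ := lam_bounded
  have key : ∀ᶠ ε : ℝ in 𝓝[>] 0, |(EP (nm (K := K)) ε fun _ => 1) - lam ε| ≤ C + D + C3 := by
    filter_upwards [hC, Filter.eventually_map.1 hD, hC3, self_mem_nhdsWithin,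
      h1.eventually_ne hr] with ε h2 h3 h4 h5 h6
    have hε : (0 : ℝ) < ε := h5
    have h7 : Real.log ‖(ε : ℂ) * LI (K := K) ψ1 (1 + (0 : ℝ) * I + ε)‖ =
        Real.log ε + Real.log ‖LI (K := K) ψ1 (1 + (0 : ℝ) * I + ε)‖ := by
      rw [norm_mul, Complex.norm_real, Real.norm_of_nonneg hε.le,
        Real.log_mul hε.ne' (norm_ne_zero_iff.2 h2.1)]
    rw [h7] at h3
    have h8 := h2.2
    simp only [Complex.one_re] at h8
    have e1 := abs_le.1 h8
    have e2 := abs_le.1 h3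
    have e3 := abs_le.1 h4
    rw [abs_le]
    constructor <;> linarith
  have hlim : Tendsto (fun ε : ℝ => (C + D + C3) / lam ε) (𝓝[>] 0) (𝓝 0) :=
    tendsto_const_nhds.div_atTop lam_tendsto
  rw [tendsto_iff_dist_tendsto_zero]
  refine squeeze_zero' (Filter.Eventually.of_forall fun _ => dist_nonneg) ?_ hlim
  filter_upwards [key, lam_tendsto.eventually_gt_atTop 0] with ε h2 h3
  rw [Real.dist_eq]
  have h4 : (EP (nm (K := K)) ε fun _ => 1) / lam ε - 1 =
      ((EP (nm (K := K)) ε fun _ => 1) - lam ε) / lam ε := by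
    field_simp
  rw [h4, abs_div, abs_of_pos h3]
  exact div_le_div_of_nonneg_right h2 h3.le

/-- the system of the primes of a number field -/
theorem sysK {𝒰 : Ultrafilter ℝ} (h : (𝒰 : Filter ℝ) ≤ 𝓝[>] 0) : Sys (nm (K := K)) 𝒰 :=
  ⟨nsys, h, EP_one⟩

end

end Pool.Agent.HS37.HK
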