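import Pool.Agent.N784.HC.Nv
import Pool.Agent.Y773.HG.Ent
import Pool.Agent.HS37.HK.One

/-!
# Hecke characters with integral infinity type

(The signature of a character, and the characters modulo an ideal, are adapted from
`Pool.Agent.N784.HC.Hk`.)
-/

set_option autoImplicit false
set_option linter.unusedSectionVars false

open NumberField Complex Filter Topology

namespace Pool.Agent.HS37.HK

open Pool.Agent.Y773 (LI TPos)
open Pool.Agent.Y773.G (cj cj_cj cj_apply IsModChar rl sg sg_mul sg_sq mk_cj sg_TPos)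
open Pool.Agent.Y772.G (isReal_or rl_real rl_cpx tpos_iff exists_neg rl_ne rl_pos_cpx)
open Pool.Agent.N784.HC (TypK ph kp kap_kp kp_mul kp_mul_ph ph_mul norm_ph Inf IsModK LI_entire nv_K)

section

variable {K : Type} [Field K] [NumberField K]

/-- a type without real part: only one of two conjugate embeddings occurs -/
def CTyp (n : (K →+* ℂ) → ℕ) : Prop := ∀ φ : K →+* ℂ, n φ = 0 ∨ n (cj φ) = 0

lemma CTyp.typ {n : (K →+* ℂ) → ℕ} (h : CTyp n) : TypK n where
  inv := cj_cj
  real φ hφ := by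
    rcases h φ with h1 | h1
    · rw [h1]; exact zero_le_one
    · rw [hφ] at h1
      rw [h1]; exact zero_le_one
  cpx φ _ := h φ

/-- the signature, for an arbitrary multiplicative function on the integers -/
theorem sig_gen {𝔣 : Ideal (𝓞 K)} (hf : 𝔣 ≠ ⊥) (v : 𝓞 K → ℂ)
    (hv1 : v 1 = 1) (hψm : ∀ x y : 𝓞 K, v (x * y) = v x * v y)
    (hψ : ∀ x : 𝓞 K, x ≠ 0 → x - 1 ∈ 𝔣 → TPos K x → v x = 1) :
    ∃ e : InfinitePlace K → ℕ, (∀ w, e w ≤ 1) ∧ (∀ w : InfinitePlace K, w.IsComplex → e w = 0) ∧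
      ∀ x : 𝓞 K, x ≠ 0 → x - 1 ∈ 𝔣 → v x = sg e (x : K) := by
  classical
  choose z hz0 hz1 hz2 hz3 using fun w : InfinitePlace K => exists_neg hf w
  -- congruences
  have hmul : ∀ x y : 𝓞 K, x - 1 ∈ 𝔣 → y - 1 ∈ 𝔣 → x * y - 1 ∈ 𝔣 := by
    intro x y hx hy
    have h1 := 𝔣.add_mem (𝔣.mul_mem_left y hx) hy
    have h2 : y * (x - 1) + (y - 1) = x * y - 1 := by ring
    rwa [h2] at h1
  have hprod : ∀ (s : Finset (InfinitePlace K)), (∏ w ∈ s, z w) - 1 ∈ 𝔣 := by
    intro s
    induction s using Finset.induction_on with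
    | empty => simp
    | insert a s ha ih => rw [Finset.prod_insert ha]; exact hmul _ _ (hz1 a) ih
  have hψp : ∀ (s : Finset (InfinitePlace K)), v (∏ w ∈ s, z w) = ∏ w ∈ s, v (z w) := by
    intro s
    induction s using Finset.induction_on with
    | empty =>
      rw [Finset.prod_empty, Finset.prod_empty, hv1]
    | insert a s ha ih => rw [Finset.prod_insert ha, hψm, ih, Finset.prod_insert ha]
  have hsq : ∀ x : 𝓞 K, x ≠ 0 → x - 1 ∈ 𝔣 → v x ^ 2 = 1 := by
    intro x hx0 hx
    rw [pow_two, ← hψm]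
    refine hψ _ (mul_ne_zero hx0 hx0) (hmul _ _ hx hx)
      ((tpos_iff (mul_ne_zero hx0 hx0)).2 fun w => ?_)
    push_cast
    rw [map_mul]
    have : rl w (x : K) ≠ 0 := rl_ne (by simpa using hx0)
    exact mul_self_pos.2 this
  -- at the complex places, `ψ(z_w) = 1`
  have hcpx : ∀ w : InfinitePlace K, w.IsComplex → v (z w) = 1 := by
    intro w hw
    refine hψ _ (hz0 w) (hz1 w) ((tpos_iff (hz0 w)).2 fun v => hz3 w v fun hv h => ?_)
    rw [h] at hv
    exact InfinitePlace.not_isReal_iff_isComplex.2 hw hv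
  refine ⟨fun w => if v (z w) = 1 then 0 else 1, fun w => ?_, fun w hw => ?_,
    fun x hx0 hx => ?_⟩
  · simp only
    split_ifs <;> norm_num
  · simp only
    rw [if_pos (hcpx w hw)]
  · have hzv : ∀ w, v (z w) = (-1 : ℂ) ^ (if v (z w) = 1 then 0 else 1) := by
      intro w
      split_ifs with h
      · rw [h, pow_zero]
      · rw [pow_one]
        have h1 := hsq _ (hz0 w) (hz1 w)
        rw [pow_two] at h1
        exact (mul_self_eq_one_iff.1 h1).resolve_left h
    set S : Finset (InfinitePlace K) := Finset.univ.filter fun w => rl w (x : K) < 0 with hS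
    have hx0' : (x : K) ≠ 0 := by simpa using hx0
    have hSr : ∀ w ∈ S, w.IsReal := by
      intro w hw
      rw [hS, Finset.mem_filter] at hw
      rcases isReal_or w with h | h
      · exact h
      · exact absurd hw.2 (not_lt.2 (rl_pos_cpx h hx0').le)
    have hpr0 : (∏ w ∈ S, z w) ≠ 0 := Finset.prod_ne_zero_iff.2 fun w _ => hz0 w
    have htp : TPos K (x * ∏ w ∈ S, z w) := by
      rw [tpos_iff (mul_ne_zero hx0 hpr0)]
      intro w
      push_cast
      rw [map_mul, map_prod]
      by_cases hw : w ∈ S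
      · rw [← Finset.mul_prod_erase _ _ hw]
        have h1 : rl w (x : K) < 0 := by
          rw [hS, Finset.mem_filter] at hw
          exact hw.2
        have h2 : 0 < ∏ v ∈ S.erase w, rl w ((algebraMap (𝓞 K) K) (z v)) :=
          Finset.prod_pos fun v hv => hz3 v w fun _ => (Finset.ne_of_mem_erase hv).symm
        have h3 := hz2 w (hSr w hw)
        have h4 : 0 < rl w (x : K) * rl w (z w : K) := mul_pos_of_neg_of_neg h1 h3
        calc 0 < rl w (x : K) * rl w (z w : K) *
              ∏ v ∈ S.erase w, rl w ((algebraMap (𝓞 K) K) (z v)) := mul_pos h4 h2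
          _ = _ := by ring
      · have h1 : 0 < rl w (x : K) := by
          rw [hS, Finset.mem_filter] at hw
          have h2 : ¬ rl w (x : K) < 0 := fun h => hw ⟨Finset.mem_univ _, h⟩
          exact lt_of_le_of_ne (not_lt.1 h2) (rl_ne hx0').symm
        refine mul_pos h1 (Finset.prod_pos fun v hv => hz3 v w fun _ => ?_)
        rintro rfl
        exact hw hv
    have h1 := hψ _ (mul_ne_zero hx0 hpr0) (hmul _ _ hx (hprod S)) htp
    rw [hψm, hψp] at h1
    have h2 : (∏ w ∈ S, v (z w)) ^ 2 = 1 := by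
      rw [← hψp]
      exact hsq _ hpr0 (hprod S)
    have h3 : v x = ∏ w ∈ S, v (z w) := by
      have h4 : v x * (∏ w ∈ S, v (z w)) ^ 2 = ∏ w ∈ S, v (z w) := by
        rw [pow_two, ← mul_assoc, h1, one_mul]
      rwa [h2, mul_one] at h4
    rw [h3]
    unfold sg
    rw [hS, Finset.prod_filter]
    refine Finset.prod_congr rfl fun w _ => ?_
    by_cases h4 : rl w (x : K) < 0
    · rw [if_pos h4, sign_neg h4]
      have := hzv w
      rw [this]
      congr 1
      simp
    · have h6 : 0 < rl w (x : K) := lt_of_le_of_ne (not_lt.1 h4) (rl_ne hx0').symm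
      rw [if_neg h4, sign_pos h6]
      simp

/-- the full type: signs at the real places added -/
noncomputable def fty (n : (K →+* ℂ) → ℕ) (e : InfinitePlace K → ℕ) (φ : K →+* ℂ) : ℕ :=
  n φ + e (InfinitePlace.mk φ)

lemma CTyp.fty {n : (K →+* ℂ) → ℕ} (h : CTyp n) {e : InfinitePlace K → ℕ} (he : ∀ w, e w ≤ 1)
    (hc : ∀ w : InfinitePlace K, w.IsComplex → e w = 0) : TypK (fty n e) where
  inv := cj_cj
  real φ hφ := by
    unfold HK.fty
    have h0 : n φ = 0 := by
      rcases h φ with h1 | h1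
      · exact h1
      · rwa [hφ] at h1
    rw [h0, zero_add]
    exact he _
  cpx φ hφ := by
    have h0 : e (InfinitePlace.mk φ) = 0 := by
      apply hc
      rw [← InfinitePlace.not_isReal_iff_isComplex]
      intro hr
      exact hφ (InfinitePlace.isReal_of_mk_isReal hr)
    unfold HK.fty
    rw [mk_cj, h0, add_zero, add_zero]
    exact h φ

lemma inf_fty {n : (K →+* ℂ) → ℕ} (h : CTyp n) (hn : n ≠ 0) (e : InfinitePlace K → ℕ) :
    Inf (fty n e) := by
  obtain ⟨φ, hφ⟩ := Function.ne_iff.mp hn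
  refine ⟨φ, ?_, ?_⟩
  · intro h1
    rcases h φ with h2 | h2
    · exact hφ h2
    · rw [h1] at h2
      exact hφ h2
  · unfold fty
    intro h1
    exact hφ (Nat.eq_zero_of_add_eq_zero_right h1)

open Classical in
lemma ph_sign {e : InfinitePlace K → ℕ}
    (hc : ∀ w : InfinitePlace K, w.IsComplex → e w = 0) {x : K} (hx : x ≠ 0) :
    ph (fun φ : K →+* ℂ => e (InfinitePlace.mk φ)) x = sg e x := by
  unfold ph sg
  rw [Pool.Agent.Y773.G.prod_emb]
  refine Finset.prod_congr rfl fun w _ => ?_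
  by_cases hw : w.IsReal
  · rw [if_pos hw]
    beta_reduce
    rw [w.mk_embedding]
    congr 1
    rw [← Pool.Agent.Y773.G.rl_cast hw]
    have h1 : rl w x ≠ 0 := rl_ne hx
    rw [Complex.norm_real, Real.norm_eq_abs]
    rcases lt_or_gt_of_ne h1 with h | h
    · rw [sign_neg h, abs_of_neg h]
      push_cast
      have : ((rl w x : ℝ) : ℂ) ≠ 0 := by exact_mod_cast h1
      field_simp
      simp
    · rw [sign_pos h, abs_of_pos h]
      have : ((rl w x : ℝ) : ℂ) ≠ 0 := by exact_mod_cast h1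
      simp [this]
  · have hc' : w.IsComplex := InfinitePlace.not_isReal_iff_isComplex.mp hw
    rw [if_neg hw]
    beta_reduce
    rw [mk_cj, w.mk_embedding, hc w hc']
    simp

lemma ph_fty {n : (K →+* ℂ) → ℕ} {e : InfinitePlace K → ℕ}
    (hc : ∀ w : InfinitePlace K, w.IsComplex → e w = 0) {x : K} (hx : x ≠ 0) :
    ph (fty n e) x = ph n x * sg e x := by
  rw [← ph_sign hc hx]
  unfold ph fty
  rw [← Finset.prod_mul_distrib]
  exact Finset.prod_congr rfl fun φ _ => pow_add _ _ _

lemma span_mul' (ψ : Ideal (𝓞 K) →*₀ ℂ) (x y : 𝓞 K) :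
    ψ (Ideal.span {x * y}) = ψ (Ideal.span {x}) * ψ (Ideal.span {y}) := by
  rw [← map_mul, Ideal.span_singleton_mul_span_singleton]

lemma kp_conj_mul (n : (K →+* ℂ) → ℕ) {x : K} (hx : x ≠ 0) : ph n x * kp n x = 1 := by
  rw [mul_comm]; exact kp_mul_ph n hx

end

end Pool.Agent.HS37.HK
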