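import Pool.Agent.HS37.HK.Chr

/-!
# The mean values of the Hecke characters with integral infinity type
-/

set_option autoImplicit false
set_option linter.unusedSectionVars false

open NumberField Complex Filter Topology ComplexConjugate IsDedekindDomain

namespace Pool.Agent.HS37.HK

open Pool.Agent.H341R2 Pool.Agent.W540.BE
open Pool.Agent.Y773 (LI TPos)
open Pool.Agent.Y773.G (cj cj_cj cj_apply IsModChar rl sg sg_mul sg_sq mk_cj sg_TPos rl_cast prod_emb)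
open Pool.Agent.Y772.G (isReal_or rl_real rl_cpx tpos_iff exists_neg rl_ne rl_pos_cpx mc_le
  exists_sig LI_pole nv_tot)
open Pool.Agent.N784.HC (TypK ph kp kap_kp kp_mul kp_mul_ph ph_mul norm_ph Inf IsModK LI_entire nv_K)

section

variable {K : Type} [Field K] [NumberField K]

/-! ## the phase -/

/-- the phase of type `k` -/
noncomputable def phz (k : (K →+* ℂ) → ℤ) (x : K) : ℂ :=
  ∏ φ : K →+* ℂ, (φ x / (‖φ x‖ : ℂ)) ^ k φ

theorem norm_ang (φ : K →+* ℂ) {x : K} (hx : x ≠ 0) : ‖φ x / (‖φ x‖ : ℂ)‖ = 1 := by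
  have h : ‖φ x‖ ≠ 0 := norm_ne_zero_iff.2 ((map_ne_zero φ).2 hx)
  rw [norm_div, Complex.norm_real, norm_norm, div_self h]

theorem ang_ne (φ : K →+* ℂ) {x : K} (hx : x ≠ 0) : φ x / (‖φ x‖ : ℂ) ≠ 0 := by
  rw [← norm_ne_zero_iff, norm_ang φ hx]
  exact one_ne_zero

theorem phz_zero (x : K) : phz 0 x = 1 := by
  unfold phz
  simp

theorem phz_add (k l : (K →+* ℂ) → ℤ) {x : K} (hx : x ≠ 0) :
    phz (k + l) x = phz k x * phz l x := by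
  unfold phz
  rw [← Finset.prod_mul_distrib]
  exact Finset.prod_congr rfl fun φ _ => by rw [Pi.add_apply, zpow_add₀ (ang_ne φ hx)]

theorem conj_unit' {z : ℂ} (h : ‖z‖ = 1) : conj z = z⁻¹ := by
  rw [Complex.inv_def, Complex.normSq_eq_norm_sq, h]
  simp

theorem norm_phz (k : (K →+* ℂ) → ℤ) {x : K} (hx : x ≠ 0) : ‖phz k x‖ = 1 := by
  unfold phz
  rw [norm_prod]
  exact Finset.prod_eq_one fun φ _ => by rw [norm_zpow, norm_ang φ hx, one_zpow]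

theorem phz_neg (k : (K →+* ℂ) → ℤ) {x : K} (hx : x ≠ 0) :
    phz (-k) x = conj (phz k x) := by
  rw [conj_unit' (norm_phz k hx)]
  unfold phz
  rw [← Finset.prod_inv_distrib]
  exact Finset.prod_congr rfl fun φ _ => by rw [Pi.neg_apply, zpow_neg]

/-- the reduced type -/
noncomputable def nn (k : (K →+* ℂ) → ℤ) (φ : K →+* ℂ) : ℕ := (k φ - k (cj φ)).toNat

theorem ctyp_nn (k : (K →+* ℂ) → ℤ) : CTyp (nn k) := by
  intro φ
  unfold nn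
  rw [cj_cj]
  rcases le_total (k φ) (k (cj φ)) with h | h
  · left
    exact Int.toNat_eq_zero.2 (by omega)
  · right
    exact Int.toNat_eq_zero.2 (by omega)

theorem phz_eq (k : (K →+* ℂ) → ℤ) {x : 𝓞 K} (hx : x ≠ 0) (hp : TPos K x) :
    phz k (x : K) = ph (nn k) (x : K) := by
  classical
  have hxK : (x : K) ≠ 0 := by exact_mod_cast hx
  unfold phz ph
  rw [prod_emb, prod_emb]
  refine Finset.prod_congr rfl fun w _ => ?_
  by_cases hw : w.IsReal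
  · rw [if_pos hw, if_pos hw]
    have h1 : 0 < rl w (x : K) := (tpos_iff hx).1 hp w
    have h2 : w.embedding (x : K) / (‖w.embedding (x : K)‖ : ℂ) = 1 := by
      rw [← rl_cast hw, Complex.norm_real, Real.norm_of_nonneg h1.le, div_self]
      exact_mod_cast h1.ne'
    rw [h2, one_zpow, one_pow]
  · rw [if_neg hw, if_neg hw]
    set φ := w.embedding with hφ
    set z : ℂ := φ (x : K) / (‖φ (x : K)‖ : ℂ) with hz
    have hz1 : ‖z‖ = 1 := norm_ang φ hxK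
    have hz0 : z ≠ 0 := ang_ne φ hxK
    have h1 : cj φ (x : K) / (‖cj φ (x : K)‖ : ℂ) = z⁻¹ := by
      rw [← conj_unit' hz1, hz, map_div₀, Complex.conj_ofReal, cj_apply, Complex.norm_conj]
    rw [h1]
    unfold nn
    rw [cj_cj]
    have h2 : (k φ - k (cj φ)) = ((k φ - k (cj φ)).toNat : ℤ) - ((k (cj φ) - k φ).toNat : ℤ) := by
      omega
    rw [inv_zpow, inv_pow, ← zpow_neg, ← zpow_natCast, ← zpow_natCast, ← zpow_neg,
      ← zpow_add₀ hz0, ← zpow_add₀ hz0]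
    congr 1

/-! ## Hecke characters -/

/-- a Hecke character with the modulus `𝔪` and the type `k` -/
structure HC (𝔪 : Ideal (𝓞 K)) (k : (K →+* ℂ) → ℤ) (ψ : Ideal (𝓞 K) →*₀ ℂ) : Prop where
  ne_bot : 𝔪 ≠ ⊥
  supp : ∀ 𝔞 : Ideal (𝓞 K), 𝔞 ≠ ⊥ → (ψ 𝔞 ≠ 0 ↔ IsCoprime 𝔞 𝔪)
  ray : ∀ x : 𝓞 K, x ≠ 0 → x - 1 ∈ 𝔪 → TPos K x → ψ (Ideal.span {x}) = phz k (x : K)

/-- the product -/
noncomputable def mulc (ψ χ : Ideal (𝓞 K) →*₀ ℂ) : Ideal (𝓞 K) →*₀ ℂ where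
  toFun 𝔞 := ψ 𝔞 * χ 𝔞
  map_zero' := by rw [map_zero, zero_mul]
  map_one' := by rw [map_one, map_one, one_mul]
  map_mul' 𝔞 𝔟 := by
    simp only [map_mul]
    ring

theorem mulc_apply (ψ χ : Ideal (𝓞 K) →*₀ ℂ) (𝔞 : Ideal (𝓞 K)) : mulc ψ χ 𝔞 = ψ 𝔞 * χ 𝔞 := rfl

/-- the conjugate -/
noncomputable def cnj (ψ : Ideal (𝓞 K) →*₀ ℂ) : Ideal (𝓞 K) →*₀ ℂ where
  toFun 𝔞 := conj (ψ 𝔞)
  map_zero' := by rw [map_zero, map_zero]
  map_one' := by rw [map_one, map_one]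
  map_mul' 𝔞 𝔟 := by rw [map_mul, map_mul]

theorem cnj_apply (ψ : Ideal (𝓞 K) →*₀ ℂ) (𝔞 : Ideal (𝓞 K)) : cnj ψ 𝔞 = conj (ψ 𝔞) := rfl

open Classical in
/-- the trivial character modulo `𝔪 ≠ 1` -/
noncomputable def triv (𝔪 : Ideal (𝓞 K)) (h : 𝔪 ≠ ⊤) : Ideal (𝓞 K) →*₀ ℂ where
  toFun 𝔞 := if IsCoprime 𝔞 𝔪 then 1 else 0
  map_zero' := by
    rw [if_neg]
    intro h1
    apply h
    have := Ideal.isCoprime_iff_sup_eq.1 h1
    rwa [Ideal.zero_eq_bot, bot_sup_eq] at this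
  map_one' := by
    rw [if_pos isCoprime_one_left]
  map_mul' 𝔞 𝔟 := by
    by_cases h1 : IsCoprime 𝔞 𝔪
    · by_cases h2 : IsCoprime 𝔟 𝔪
      · rw [if_pos h1, if_pos h2, if_pos (h1.mul_left h2), one_mul]
      · rw [if_neg h2, mul_zero, if_neg fun h3 => h2 (IsCoprime.of_mul_left_right h3)]
    · rw [if_neg h1, zero_mul, if_neg fun h3 => h1 (IsCoprime.of_mul_left_left h3)]

theorem triv_one {𝔪 : Ideal (𝓞 K)} (h : 𝔪 ≠ ⊤) {𝔞 : Ideal (𝓞 K)} (h1 : IsCoprime 𝔞 𝔪) :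
    triv 𝔪 h 𝔞 = 1 := by
  classical
  exact if_pos h1

theorem triv_zero {𝔪 : Ideal (𝓞 K)} (h : 𝔪 ≠ ⊤) {𝔞 : Ideal (𝓞 K)} (h1 : ¬ IsCoprime 𝔞 𝔪) :
    triv 𝔪 h 𝔞 = 0 := by
  classical
  exact if_neg h1

theorem coprime_of_sub {𝔪 : Ideal (𝓞 K)} {x : 𝓞 K} (h : x - 1 ∈ 𝔪) :
    IsCoprime (Ideal.span {x}) 𝔪 := by
  rw [Ideal.isCoprime_iff_exists]
  exact ⟨x, Ideal.mem_span_singleton_self x, -(x - 1), neg_mem h, by ring⟩

theorem HC.triv {𝔪 : Ideal (𝓞 K)} (h0 : 𝔪 ≠ ⊥) (h : 𝔪 ≠ ⊤) : HC 𝔪 0 (triv 𝔪 h) where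
  ne_bot := h0
  supp 𝔞 _ := by
    by_cases h1 : IsCoprime 𝔞 𝔪
    · rw [triv_one h h1]
      exact ⟨fun _ => h1, fun _ => one_ne_zero⟩
    · rw [triv_zero h h1]
      exact ⟨fun h2 => absurd rfl h2, fun h2 => absurd h2 h1⟩
  ray x _ hx _ := by rw [triv_one h (coprime_of_sub hx), phz_zero]

theorem HC.mul {𝔪 𝔫 : Ideal (𝓞 K)} {k l : (K →+* ℂ) → ℤ} {ψ χ : Ideal (𝓞 K) →*₀ ℂ}
    (hψ : HC 𝔪 k ψ) (hχ : HC 𝔫 l χ) : HC (𝔪 * 𝔫) (k + l) (mulc ψ χ) where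
  ne_bot := mul_ne_zero hψ.ne_bot hχ.ne_bot
  supp 𝔞 h := by
    rw [mulc_apply, mul_ne_zero_iff, hψ.supp 𝔞 h, hχ.supp 𝔞 h, IsCoprime.mul_right_iff]
  ray x hx hx1 hp := by
    have e1 : 𝔪 * 𝔫 ≤ 𝔪 := Ideal.mul_le_left
    have e2 : 𝔪 * 𝔫 ≤ 𝔫 := Ideal.mul_le_right
    have hxK : (x : K) ≠ 0 := by exact_mod_cast hx
    rw [mulc_apply, hψ.ray x hx (e1 hx1) hp, hχ.ray x hx (e2 hx1) hp, phz_add k l hxK]

theorem HC.cnj {𝔪 : Ideal (𝓞 K)} {k : (K →+* ℂ) → ℤ} {ψ : Ideal (𝓞 K) →*₀ ℂ}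
    (hψ : HC 𝔪 k ψ) : HC 𝔪 (-k) (cnj ψ) where
  ne_bot := hψ.ne_bot
  supp 𝔞 h := by
    rw [cnj_apply, map_ne_zero, hψ.supp 𝔞 h]
  ray x hx hx1 hp := by
    rw [cnj_apply, hψ.ray x hx hx1 hp, phz_neg _ (by exact_mod_cast hx)]

theorem coprime_iff {𝔪 : Ideal (𝓞 K)} (v : HeightOneSpectrum (𝓞 K)) :
    IsCoprime v.asIdeal 𝔪 ↔ ¬ v.asIdeal ∣ 𝔪 := by
  constructor
  · intro h hd
    have h1 := Ideal.isCoprime_iff_sup_eq.1 h
    rw [sup_eq_left.2 (Ideal.dvd_iff_le.1 hd)] at h1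
    exact v.isPrime.ne_top h1
  · intro h
    rw [Ideal.isCoprime_iff_sup_eq]
    by_contra hne
    have h1 := v.isMaximal.eq_of_le hne le_sup_left
    exact h (Ideal.dvd_iff_le.2 (by rw [h1]; exact le_sup_right))

theorem ev_coprime {𝔪 : Ideal (𝓞 K)} (h : 𝔪 ≠ ⊥) :
    ∀ᶠ v : HeightOneSpectrum (𝓞 K) in cofinite, IsCoprime v.asIdeal 𝔪 := by
  rw [Filter.eventually_cofinite]
  refine (Ideal.finite_factors (I := 𝔪) h).subset fun v hv => ?_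
  rw [Set.mem_ofPred_eq, coprime_iff, not_not] at hv
  exact hv

theorem mul_ne_top {𝔪 𝔫 : Ideal (𝓞 K)} (h : 𝔪 ≠ ⊤) : 𝔪 * 𝔫 ≠ ⊤ := by
  intro h1
  apply h
  have e1 : 𝔪 * 𝔫 ≤ 𝔪 := Ideal.mul_le_left
  rw [← top_le_iff, ← h1]
  exact e1

theorem exists_ideal : ∃ 𝔫 : Ideal (𝓞 K), 𝔫 ≠ ⊥ ∧ 𝔫 ≠ ⊤ := by
  obtain ⟨M, hM⟩ := Ideal.exists_maximal (𝓞 K)
  exact ⟨M, Ring.ne_bot_of_isMaximal_of_not_isField hM (RingOfIntegers.not_isField K), hM.ne_top⟩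

/-- enlarging the modulus -/
theorem HC.proper {𝔪 : Ideal (𝓞 K)} {k : (K →+* ℂ) → ℤ} {ψ : Ideal (𝓞 K) →*₀ ℂ} (h : HC 𝔪 k ψ) :
    ∃ (𝔪' : Ideal (𝓞 K)) (ψ' : Ideal (𝓞 K) →*₀ ℂ), HC 𝔪' k ψ' ∧ 𝔪' ≠ ⊤ ∧
      ∀ᶠ v : HeightOneSpectrum (𝓞 K) in cofinite, ψ' v.asIdeal = ψ v.asIdeal := by
  obtain ⟨𝔫, h0, h1⟩ := exists_ideal (K := K)
  refine ⟨𝔫 * 𝔪, mulc (HK.triv 𝔫 h1) ψ, ?_, mul_ne_top h1, ?_⟩
  · have h2 := (HC.triv h0 h1).mul h
    rwa [zero_add] at h2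
  · filter_upwards [ev_coprime h0] with v hv
    rw [mulc_apply, triv_one h1 hv, one_mul]

/-- the two kinds of characters -/
theorem HC.kinds {𝔪 : Ideal (𝓞 K)} {k : (K →+* ℂ) → ℤ} {ψ : Ideal (𝓞 K) →*₀ ℂ} (h : HC 𝔪 k ψ)
    (htop : 𝔪 ≠ ⊤) :
    (∃ n, TypK (K := K) n ∧ Inf n ∧ IsModK 𝔪 (kp n) ψ) ∨
    ∃ e, IsModChar 𝔪 e ψ := by
  have hray : ∀ x : 𝓞 K, x ≠ 0 → x - 1 ∈ 𝔪 → TPos K x →
      ψ (Ideal.span {x}) = ph (nn k) (x : K) := by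
    intro x hx hx1 hp
    rw [h.ray x hx hx1 hp, phz_eq k hx hp]
  by_cases hn : nn k = 0
  · right
    refine exists_sig h.ne_bot htop h.supp fun x hx hx1 hp => ?_
    rw [hray x hx hx1 hp, hn]
    unfold ph
    simp
  · left
    obtain ⟨e, he, hc, hs⟩ := sig_gen h.ne_bot (fun x => ψ (Ideal.span {x}) * kp (nn k) (x : K))
      (by
        have h1 : ((1 : 𝓞 K) : K) = 1 := map_one (algebraMap (𝓞 K) K)
        rw [Ideal.span_singleton_one, ← Ideal.one_eq_top, map_one, h1, one_mul]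
        have := (kap_kp (nn k)).nat 1 one_pos
        simpa using this)
      (fun x y => by
        have h1 : ((x * y : 𝓞 K) : K) = (x : K) * (y : K) := map_mul (algebraMap (𝓞 K) K) x y
        rw [span_mul', h1, kp_mul]
        ring)
      (fun x hx hx1 hx2 => by
        rw [hray x hx hx1 hx2, mul_comm, kp_mul_ph (nn k) (by exact_mod_cast hx)])
    refine ⟨fty (nn k) e, (ctyp_nn k).fty he hc, inf_fty (ctyp_nn k) hn e, ⟨kap_kp _, h.ne_bot,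
      htop, fun 𝔞 => ?_, fun x hx hx1 => ?_⟩⟩
    · by_cases h0 : 𝔞 = ⊥
      · subst h0
        constructor
        · intro h2
          exact absurd (by rw [← Ideal.zero_eq_bot, map_zero]) h2
        · intro h2
          exfalso
          apply htop
          have := Ideal.isCoprime_iff_sup_eq.1 h2
          rwa [bot_sup_eq] at this
      · exact h.supp 𝔞 h0
    · have hxK : (x : K) ≠ 0 := by exact_mod_cast hx
      have h1 := hs x hx hx1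
      have h2 : kp (fty (nn k) e) (x : K) = kp (nn k) (x : K) * (starRingEnd ℂ) (sg e (x : K)) := by
        unfold kp
        rw [ph_fty hc hxK, map_mul]
      rw [h2, Pool.Agent.Y773.G.conj_sg, ← mul_assoc, h1]
      exact sg_sq e hxK

/-! ## mean values -/

theorem mean_of_F {ψ : Ideal (𝓞 K) →*₀ ℂ} (hψ : ∀ 𝔞, ‖ψ 𝔞‖ ≤ 1) (τ : ℝ) {F : ℂ → ℂ}
    (hF : AnalyticAt ℂ F (1 + τ * I)) (hF0 : F (1 + τ * I) ≠ 0)
    (hFL : ∀ᶠ s in 𝓝 ((1 : ℂ) + τ * I), 1 < s.re → F s = LI ψ s) {𝒰 : Ultrafilter ℝ}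
    (hS : Sys (nm (K := K)) 𝒰) : AvC nm 𝒰 (val ψ τ) 0 := by
  have hone : ∀ v : HeightOneSpectrum (𝓞 K), ∀ β ∈ ({val ψ τ v} : Multiset ℂ), ‖β‖ ≤ 1 := by
    intro v β hβ
    rw [Multiset.mem_singleton] at hβ
    rw [hβ]
    exact norm_val hψ τ v
  obtain ⟨C, hC⟩ := sizeC (N := nm (K := K)) nsys (Good := fun _ => True) (by simp) (fun _ => 1)
    (1 + τ * I) (fun v hv => absurd trivial hv) (val ψ τ) (K := 1) (norm_val hψ τ)
    (fun v hv => absurd trivial hv)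
    (fun ε v => MG {val ψ τ v} ((nm v : ℝ) ^ (-(1 + ε)))) (C := 2)
    (fun v _ => (MG_cont (hone v)).comp (cont_wt nsys v).continuousOn fun ε hε => by
      have hε' : (0 : ℝ) < ε := hε
      exact nm_small v hε'.le)
    (fun ε hε v _ => by
      have h1 := nm_small v hε.le
      have h2 := MG_sub (hone v) h1.1 h1.2
      rw [Multiset.sum_singleton, Multiset.card_singleton] at h2
      refine h2.trans ?_
      rw [Nat.cast_one, one_mul]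
      have h3 := nm_sq v hε.le
      have h4 : 0 ≤ (nm v : ℝ) ^ (-2 : ℝ) := by positivity
      linarith)
    (fun ε hε v _ => by
      have h1 := nm_small v hε.le
      have h2 := MG_le (hone v) h1.1 h1.2
      rw [Multiset.card_singleton] at h2
      simpa using h2)
    (L := fun ε => LI ψ (1 + τ * I + ε))
    (fun ε hε c _ => by
      simp only [if_true]
      exact LI_prod hψ τ hε)
    (Λ := F) hF.meromorphicAt (m := 0)
    (by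
      rw [hF.meromorphicOrderAt_eq, hF.analyticOrderAt_eq_zero.2 hF0]
      rfl)
    (by
      have h1 : Tendsto (fun ε : ℝ => (1 : ℂ) + τ * I + ε) (𝓝[>] 0) (𝓝 (1 + τ * I)) :=
        path_tendsto' _
      filter_upwards [h1.eventually hFL, self_mem_nhdsWithin] with ε h2 h3
      have hε : (0 : ℝ) < ε := h3
      exact h2 (by simp; exact hε))
  have h1 := mean_of_log hS (norm_val hψ τ) hC
  exact h1.congr (fun _ => rfl) (by simp)

/-- the mean value of a Hecke character -/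
theorem HC.mean {𝔪 : Ideal (𝓞 K)} {k : (K →+* ℂ) → ℤ} {ψ : Ideal (𝓞 K) →*₀ ℂ} (h : HC 𝔪 k ψ)
    (htop : 𝔪 ≠ ⊤) (τ : ℝ) (hne : ¬ ∀ᶠ v in cofinite, val ψ τ v = 1) {𝒰 : Ultrafilter ℝ}
    (hS : Sys (nm (K := K)) 𝒰) : AvC nm 𝒰 (val ψ τ) 0 := by
  have hre : ((1 : ℂ) + τ * I).re = 1 := by simp
  rcases h.kinds htop with ⟨n, hn, hi, hm⟩ | ⟨e, he⟩
  · obtain ⟨F, hF, hFL⟩ := LI_entire hn hi.ne hm
    refine mean_of_F hm.norm_le_one τ (hF.analyticAt _) ?_ (Eventually.of_forall fun s hs => hFL s hs)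
      hS
    exact nv_K hn hi hm hre (hF.analyticAt _) (Eventually.of_forall fun s hs => hFL s hs)
  · by_cases hnt : ∃ 𝔞, IsCoprime 𝔞 𝔪 ∧ ψ 𝔞 ≠ 1
    · obtain ⟨F, hF, hFL⟩ := Pool.Agent.Y773.G.t_ent K 𝔪 ψ e he hnt
      refine mean_of_F (mc_le he) τ (hF.analyticAt _) ?_ (Eventually.of_forall fun s hs => hFL s hs)
        hS
      exact nv_tot Pool.Agent.Y773.G.t_ent he hre (hF.analyticAt _)
        (Eventually.of_forall fun s hs => hFL s hs)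
    · push Not at hnt
      have hτ : τ ≠ 0 := by
        rintro rfl
        apply hne
        filter_upwards [ev_coprime he.ne_bot] with v hv
        unfold val
        rw [hnt _ hv]
        simp
      obtain ⟨G, hG, hGL, -⟩ := LI_pole he
      have hρ : (1 : ℂ) + τ * I - 1 ≠ 0 := by
        rw [add_sub_cancel_left]
        exact mul_ne_zero (by exact_mod_cast hτ) I_ne_zero
      have hA : AnalyticAt ℂ (fun s => G s / (s - 1)) (1 + τ * I) :=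
        (hG.analyticAt _).div (analyticAt_id.sub analyticAt_const) hρ
      have hL : ∀ᶠ s in 𝓝 ((1 : ℂ) + τ * I), 1 < s.re → G s / (s - 1) = LI ψ s := by
        refine Eventually.of_forall fun s hs => ?_
        rw [hGL s hs]
        have : s - 1 ≠ 0 := by
          intro h1
          have h2 : s = 1 := by linear_combination h1
          rw [h2] at hs
          simp at hs
        field_simp
      exact mean_of_F (mc_le he) τ hA (nv_tot Pool.Agent.Y773.G.t_ent he hre hA hL) hL hS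

/-! ## the group of Hecke characters, as functions on the primes -/

/-- `χ` is, at almost all primes, a Hecke character -/
def Hk (χ : HeightOneSpectrum (𝓞 K) → ℂ) : Prop :=
  (∀ v, ‖χ v‖ = 1) ∧ ∃ (𝔪 : Ideal (𝓞 K)) (k : (K →+* ℂ) → ℤ) (ψ : Ideal (𝓞 K) →*₀ ℂ) (τ : ℝ),
    HC 𝔪 k ψ ∧ 𝔪 ≠ ⊤ ∧ ∀ᶠ v in cofinite, χ v = val ψ τ v

theorem norm_HC {𝔪 : Ideal (𝓞 K)} {k : (K →+* ℂ) → ℤ} {ψ : Ideal (𝓞 K) →*₀ ℂ} (h : HC 𝔪 k ψ)
    (htop : 𝔪 ≠ ⊤) {𝔞 : Ideal (𝓞 K)} (h1 : IsCoprime 𝔞 𝔪) : ‖ψ 𝔞‖ = 1 := by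
  rcases h.kinds htop with ⟨n, hn, hi, hm⟩ | ⟨e, he⟩
  · exact hm.norm_eq_one h1
  · exact Pool.Agent.Y772.G.mc_norm he h1

/-- from a Hecke character -/
theorem Hk.of_HC {𝔪 : Ideal (𝓞 K)} {k : (K →+* ℂ) → ℤ} {ψ : Ideal (𝓞 K) →*₀ ℂ} (h : HC 𝔪 k ψ)
    (τ : ℝ) : ∃ χ : HeightOneSpectrum (𝓞 K) → ℂ, Hk χ ∧ ∀ᶠ v in cofinite, χ v = val ψ τ v := by
  classical
  obtain ⟨𝔪', ψ', h1, h2, h3⟩ := h.proper
  have h4 : ∀ᶠ v : HeightOneSpectrum (𝓞 K) in cofinite,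
      (if ‖val ψ τ v‖ = 1 then val ψ τ v else 1) = val ψ τ v ∧ val ψ τ v = val ψ' τ v := by
    filter_upwards [h3, ev_coprime h1.ne_bot] with v hv hv'
    have h5 : val ψ τ v = val ψ' τ v := by
      unfold val
      rw [hv]
    have h6 : ‖val ψ τ v‖ = 1 := by
      rw [h5]
      unfold val
      rw [norm_mul, norm_tw, mul_one]
      exact norm_HC h1 h2 hv'
    exact ⟨if_pos h6, h5⟩
  refine ⟨fun v => if ‖val ψ τ v‖ = 1 then val ψ τ v else 1, ⟨fun v => ?_, 𝔪', k, ψ', τ, h1, h2, ?_⟩,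
    ?_⟩
  · simp only
    split_ifs with h
    · exact h
    · exact norm_one
  · filter_upwards [h4] with v hv
    rw [hv.1, hv.2]
  · filter_upwards [h4] with v hv
    exact hv.1

theorem Hk.mul {χ χ' : HeightOneSpectrum (𝓞 K) → ℂ} (h : Hk χ) (h' : Hk χ') :
    Hk fun v => χ v * χ' v := by
  obtain ⟨h1, 𝔪, k, ψ, τ, h2, h3, h4⟩ := h
  obtain ⟨h1', 𝔪', k', ψ', τ', h2', h3', h4'⟩ := h'
  refine ⟨fun v => by rw [norm_mul, h1, h1', one_mul], 𝔪 * 𝔪', k + k', mulc ψ ψ', τ + τ',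
    h2.mul h2', mul_ne_top h3, ?_⟩
  filter_upwards [h4, h4'] with v hv hv'
  rw [hv, hv']
  unfold val
  rw [mulc_apply]
  have h5 : (-(((τ + τ' : ℝ) : ℂ) * I)) = (-(τ * I)) + (-(τ' * I)) := by
    push_cast
    ring
  rw [h5, Complex.cpow_add _ _ (nm_ne v)]
  ring

theorem Hk.conj {χ : HeightOneSpectrum (𝓞 K) → ℂ} (h : Hk χ) : Hk fun v => conj (χ v) := by
  obtain ⟨h1, 𝔪, k, ψ, τ, h2, h3, h4⟩ := h
  refine ⟨fun v => by rw [Complex.norm_conj, h1], 𝔪, -k, cnj ψ, -τ, h2.cnj, h3, ?_⟩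
  filter_upwards [h4] with v hv
  rw [hv]
  unfold val
  rw [cnj_apply, map_mul, conj_unit' (norm_tw v τ), ← Complex.cpow_neg]
  congr 2
  push_cast
  ring

theorem Hk.one : Hk fun _ : HeightOneSpectrum (𝓞 K) => (1 : ℂ) := by
  obtain ⟨𝔫, h0, h1⟩ := exists_ideal (K := K)
  refine ⟨fun _ => norm_one, 𝔫, 0, HK.triv 𝔫 h1, 0, HC.triv h0 h1, h1, ?_⟩
  filter_upwards [ev_coprime h0] with v hv
  unfold val
  rw [triv_one h1 hv]
  simp

theorem Hk.mean {χ : HeightOneSpectrum (𝓞 K) → ℂ} (h : Hk χ)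
    (hne : ¬ ∀ᶠ v in cofinite, χ v = 1) {𝒰 : Ultrafilter ℝ} (hS : Sys (nm (K := K)) 𝒰) :
    AvC nm 𝒰 χ 0 := by
  obtain ⟨h1, 𝔪, k, ψ, τ, h2, h3, h4⟩ := h
  have h5 := h2.mean h3 τ (fun h => hne (by
    filter_upwards [h, h4] with v hv hv'
    rw [hv', hv])) hS
  have hb : BdC (val ψ τ) := by
    refine ⟨1, norm_val (fun 𝔞 => ?_) τ⟩
    rcases h2.kinds h3 with ⟨n, hn, hi, hm⟩ | ⟨e, he⟩
    · exact hm.norm_le_one 𝔞
    · exact mc_le he 𝔞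
  refine AvC.congr_fin hS hb ?_ h5
  rw [Filter.eventually_cofinite] at h4
  exact h4.subset fun v hv h => hv h.symm

theorem mean_one {χ : HeightOneSpectrum (𝓞 K) → ℂ}
    (h : ∀ᶠ v in cofinite, χ v = 1) {𝒰 : Ultrafilter ℝ} (hS : Sys (nm (K := K)) 𝒰) :
    AvC nm 𝒰 χ 1 := by
  refine AvC.congr_fin hS (BdC.const 1) ?_ (AvC.const hS 1)
  rw [Filter.eventually_cofinite] at h
  exact h.subset fun v hv h => hv h.symm

end

end Pool.Agent.HS37.HK
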