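import Pool.Agent.HS37.HK.Abs

/-!
# The first moment for two characters of infinite order
-/

set_option autoImplicit false

namespace Pool.Agent.HS37.HK

open Complex Filter Topology ComplexConjugate Pool.Agent.H341R2 Pool.Agent.W540.BE

theorem pt_id {a b : ℂ} (ha : ‖a‖ = 1) (hb : ‖b‖ = 1) :
    (a.re + b.re) ^ 2 - 1 = 1 / 2 * (a ^ 2).re + 1 / 2 * (b ^ 2).re + (a * b).re +
      (a * conj b).re ∧
    2 * ((a.re + b.re) ^ 2 - 1) * (a * b).re - (a * b).re ^ 2 =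
      1 / 2 + 1 / 2 * (a ^ 2 * b ^ 2).re + 1 / 2 * (a ^ 3 * b).re + 1 / 2 * (a * b ^ 3).re +
        (a * conj b).re + (a ^ 2).re + (b ^ 2).re := by
  have ha0 : a ≠ 0 := by
    intro h
    rw [h, norm_zero] at ha
    exact zero_ne_one ha
  have hb0 : b ≠ 0 := by
    intro h
    rw [h, norm_zero] at hb
    exact zero_ne_one hb
  have hca : conj a = a⁻¹ := by
    rw [Complex.inv_def, Complex.normSq_eq_norm_sq, ha]
    simp
  have hcb : conj b = b⁻¹ := by
    rw [Complex.inv_def, Complex.normSq_eq_norm_sq, hb]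
    simp
  have hre : ∀ u : ℂ, ((u.re : ℝ) : ℂ) = (u + conj u) / 2 := by
    intro u
    rw [Complex.add_conj]
    push_cast
    ring
  constructor
  · have h : (((a.re + b.re) ^ 2 - 1 : ℝ) : ℂ) = ((1 / 2 * (a ^ 2).re + 1 / 2 * (b ^ 2).re +
        (a * b).re + (a * conj b).re : ℝ) : ℂ) := by
      push_cast
      simp only [hre, map_mul, map_pow, hca, hcb, map_inv₀, inv_inv]
      field_simp
      ring
    exact_mod_cast h
  · have h : ((2 * ((a.re + b.re) ^ 2 - 1) * (a * b).re - (a * b).re ^ 2 : ℝ) : ℂ) =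
        ((1 / 2 + 1 / 2 * (a ^ 2 * b ^ 2).re + 1 / 2 * (a ^ 3 * b).re +
          1 / 2 * (a * b ^ 3).re + (a * conj b).re + (a ^ 2).re + (b ^ 2).re : ℝ) : ℂ) := by
      push_cast
      simp only [hre, map_mul, map_pow, hca, hcb, map_inv₀, inv_inv]
      field_simp
      ring
    exact_mod_cast h

/-- the pointwise inequality -/
theorem pt_le {a b : ℂ} (ha : ‖a‖ = 1) (hb : ‖b‖ = 1) :
    |a.re + b.re| ≤ 35 / 36 + (7 / 36 * (a ^ 2).re + (7 / 36 * (b ^ 2).re + (1 / 2 * (a * b).re +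
      (4 / 9 * (a * conj b).re + (-(1 / 36) * (a ^ 2 * b ^ 2).re + (-(1 / 36) * (a ^ 3 * b).re +
        -(1 / 36) * (a * b ^ 3).re)))))) := by
  obtain ⟨h1, h2⟩ := pt_id ha hb
  set x := a.re + b.re with hx
  have ha1 := (Complex.abs_re_le_norm a).trans ha.le
  have hb1 := (Complex.abs_re_le_norm b).trans hb.le
  have hx2 : |x| ≤ 2 := (abs_add_le _ _).trans (by linarith)
  have hx0 := abs_nonneg x
  have hsq : |x| ^ 2 = x ^ 2 := sq_abs x
  have h3 : |x| ≤ 1 + (x ^ 2 - 1) / 2 - (x ^ 2 - 1) ^ 2 / 18 := by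
    rw [← hsq]
    have h4 : 1 + (|x| ^ 2 - 1) / 2 - (|x| ^ 2 - 1) ^ 2 / 18 - |x| =
        (1 - |x|) ^ 2 * (9 - (1 + |x|) ^ 2) / 18 := by ring
    have h5 : 0 ≤ 9 - (1 + |x|) ^ 2 := by nlinarith
    have h6 : 0 ≤ (1 - |x|) ^ 2 * (9 - (1 + |x|) ^ 2) / 18 := by positivity
    linarith
  have h4 : 2 * (x ^ 2 - 1) * (a * b).re - (a * b).re ^ 2 ≤ (x ^ 2 - 1) ^ 2 := by
    nlinarith [sq_nonneg ((x ^ 2 - 1) - (a * b).re)]
  rw [h2] at h4
  rw [h1] at h3
  rw [h1] at h4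
  linarith

section
variable {P : Type*} {N : P → ℕ} {𝒰 : Ultrafilter ℝ}

theorem pair (hS : Sys N 𝒰) {z w : P → ℂ} (hz : ∀ p, ‖z p‖ = 1) (hw : ∀ p, ‖w p‖ = 1)
    (h20 : Av N 𝒰 (fun p => (z p ^ 2).re) 0) (h02 : Av N 𝒰 (fun p => (w p ^ 2).re) 0)
    (h11 : Av N 𝒰 (fun p => (z p * w p).re) 0) (h1m : Av N 𝒰 (fun p => (z p * conj (w p)).re) 0)
    (h31 : Av N 𝒰 (fun p => (z p ^ 3 * w p).re) 0) (h13 : Av N 𝒰 (fun p => (z p * w p ^ 3).re) 0)
    {e : ℝ} (h22 : Av N 𝒰 (fun p => (z p ^ 2 * w p ^ 2).re) e) (he : 0 ≤ e) {y : ℝ}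
    (hy : Av N 𝒰 (fun p => |(z p).re + (w p).re|) y) : y ≤ 35 / 36 := by
  have bb : ∀ (g : P → ℂ), (∀ p, ‖g p‖ = 1) → Bd fun p => (g p).re :=
    fun g hg => Bd.of_norm_re (B := 1) fun p => (hg p).le
  have b20 := bb (fun p => z p ^ 2) fun p => by rw [norm_pow, hz, one_pow]
  have b02 := bb (fun p => w p ^ 2) fun p => by rw [norm_pow, hw, one_pow]
  have b11 := bb (fun p => z p * w p) fun p => by rw [norm_mul, hz, hw, one_mul]
  have b1m := bb (fun p => z p * conj (w p)) fun p => by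
    rw [norm_mul, Complex.norm_conj, hz, hw, one_mul]
  have b31 := bb (fun p => z p ^ 3 * w p) fun p => by rw [norm_mul, norm_pow, hz, hw]; norm_num
  have b13 := bb (fun p => z p * w p ^ 3) fun p => by rw [norm_mul, norm_pow, hz, hw]; norm_num
  have b22 := bb (fun p => z p ^ 2 * w p ^ 2) fun p => by
    rw [norm_mul, norm_pow, norm_pow, hz, hw]; norm_num
  have c6 := b31.const_mul (-(1 / 36)) |>.add (b13.const_mul (-(1 / 36)))
  have c5 := b22.const_mul (-(1 / 36)) |>.add c6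
  have c4 := b1m.const_mul (4 / 9) |>.add c5
  have c3 := b11.const_mul (1 / 2) |>.add c4
  have c2 := b02.const_mul (7 / 36) |>.add c3
  have c1 := b20.const_mul (7 / 36) |>.add c2
  have m6 := Av.add hS (b31.const_mul (-(1 / 36))) (b13.const_mul (-(1 / 36)))
    (h31.const_mul (-(1 / 36))) (h13.const_mul (-(1 / 36)))
  have m5 := Av.add hS (b22.const_mul (-(1 / 36))) c6 (h22.const_mul (-(1 / 36))) m6
  have m4 := Av.add hS (b1m.const_mul (4 / 9)) c5 (h1m.const_mul (4 / 9)) m5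
  have m3 := Av.add hS (b11.const_mul (1 / 2)) c4 (h11.const_mul (1 / 2)) m4
  have m2 := Av.add hS (b02.const_mul (7 / 36)) c3 (h02.const_mul (7 / 36)) m3
  have m1 := Av.add hS (b20.const_mul (7 / 36)) c2 (h20.const_mul (7 / 36)) m2
  have m0 := Av.add hS (Bd.const (35 / 36)) c1 (Av.const hS (35 / 36)) m1
  have hxy : Bd fun p => |(z p).re + (w p).re| := ((bb z hz).add (bb w hw)).abs
  have := Av.mono hS hxy ((Bd.const (35 / 36)).add c1) hy m0 fun p => pt_le (hz p) (hw p)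
  linarith

end

end Pool.Agent.HS37.HK
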