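import Pool.Agent.HS37.HK.Abs

/-!
# The sup norm inequality for a group of characters
-/

set_option autoImplicit false

namespace Pool.Agent.HS37.HK

open Complex Filter Topology ComplexConjugate Pool.Agent.H341R2 Pool.Agent.W540.BE

theorem subexp {a : ℕ → ℝ} {d : ℕ} (h1 : 1 ≤ a 1) (hd : ∀ n, a n ≤ ((n : ℝ) ^ d) ^ 2) {δ : ℝ}
    (hδ : 0 < δ) : ∃ n, 1 ≤ n ∧ a (n + 1) ≤ (1 + δ) * a n ∧ 1 ≤ a n := by
  by_contra hcon
  push Not at hcon
  have hlow : ∀ n, (1 + δ) ^ n ≤ a (n + 1) := by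
    intro n
    induction n with
    | zero => simpa using h1
    | succ n ih =>
      have h2 : (1 : ℝ) ≤ (1 + δ) ^ n := one_le_pow₀ (by linarith)
      by_contra h3
      push Not at h3
      have h4 : a (n + 1 + 1) ≤ (1 + δ) * a (n + 1) := by
        refine h3.le.trans ?_
        rw [pow_succ, mul_comm]
        exact mul_le_mul_of_nonneg_left ih (by linarith)
      have h5 := hcon (n + 1) (by omega) h4
      linarith
  have hlim := tendsto_pow_const_div_const_pow_of_one_lt (2 * d) (r := 1 + δ) (by linarith)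
  have h2 := (hlim.comp (tendsto_add_atTop_nat 1)).eventually_lt_const
    (show (0 : ℝ) < (1 + δ)⁻¹ by positivity)
  obtain ⟨n, hn⟩ := h2.exists
  simp only [Function.comp_apply] at hn
  have h3 : (1 + δ) ^ n ≤ ((n + 1 : ℕ) : ℝ) ^ (2 * d) := by
    refine (hlow n).trans ((hd (n + 1)).trans (le_of_eq ?_))
    rw [← pow_mul, mul_comm d 2]
  have h4 : (0 : ℝ) < (1 + δ) ^ (n + 1) := by positivity
  rw [div_lt_iff₀ h4, pow_succ, ← mul_assoc, mul_comm (1 + δ)⁻¹, mul_assoc,
    inv_mul_cancel₀ (by positivity), mul_one] at hn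
  linarith

section
variable {P : Type*} {N : P → ℕ} {𝒰 : Ultrafilter ℝ} {κ : Type} [Fintype κ]

/-- monomials in the characters -/
noncomputable def X (χ : κ → P → ℂ) (e : κ → ℤ) (p : P) : ℂ := ∏ k, χ k p ^ e k

/-- the same for numbers -/
noncomputable def G (g : κ → ℂ) (e : κ → ℤ) : ℂ := ∏ k, g k ^ e k

theorem norm_G {g : κ → ℂ} (hg : ∀ k, ‖g k‖ = 1) (e : κ → ℤ) : ‖G g e‖ = 1 := by
  unfold G
  rw [norm_prod]
  exact Finset.prod_eq_one fun k _ => by rw [norm_zpow, hg, one_zpow]

theorem X_eq (χ : κ → P → ℂ) (e : κ → ℤ) (p : P) : X χ e p = G (fun k => χ k p) e := rfl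

theorem norm_X {χ : κ → P → ℂ} (h : ∀ k p, ‖χ k p‖ = 1) (e : κ → ℤ) (p : P) : ‖X χ e p‖ = 1 :=
  norm_G (fun k => h k p) e

theorem G_add {g : κ → ℂ} (hg : ∀ k, ‖g k‖ = 1) (e f : κ → ℤ) :
    G g (e + f) = G g e * G g f := by
  unfold G
  rw [← Finset.prod_mul_distrib]
  refine Finset.prod_congr rfl fun k _ => ?_
  rw [Pi.add_apply, zpow_add₀]
  intro h
  have := hg k
  rw [h, norm_zero] at this
  exact zero_ne_one this

theorem conj_unit {z : ℂ} (h : ‖z‖ = 1) : conj z = z⁻¹ := by
  rw [Complex.inv_def, Complex.normSq_eq_norm_sq, h]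
  simp

theorem G_neg (g : κ → ℂ) (e : κ → ℤ) : G g (-e) = (G g e)⁻¹ := by
  unfold G
  rw [← Finset.prod_inv_distrib]
  exact Finset.prod_congr rfl fun k _ => by rw [Pi.neg_apply, zpow_neg]

theorem G_sub {g : κ → ℂ} (hg : ∀ k, ‖g k‖ = 1) (e f : κ → ℤ) :
    G g (e - f) = G g e * (G g f)⁻¹ := by
  rw [sub_eq_add_neg, G_add hg, G_neg]

theorem G_single [DecidableEq κ] (g : κ → ℂ) (k : κ) : G g (Pi.single k 1) = g k := by
  unfold G
  rw [Finset.prod_eq_single k]
  · rw [Pi.single_eq_same, zpow_one]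
  · intro l _ hl
    rw [Pi.single_eq_of_ne hl, zpow_zero]
  · intro h
    exact absurd (Finset.mem_univ k) h

/-- the situation -/
structure Dat [DecidableEq κ] (N : P → ℕ) (𝒰 : Ultrafilter ℝ) (χ : κ → P → ℂ) (g : κ → ℂ) (T : P → ℂ)
    (c : κ → ℂ) (s : ℝ) (R : (κ → ℤ) → Prop) [DecidablePred R] : Prop where
  sys : Sys N 𝒰
  unit : ∀ k p, ‖χ k p‖ = 1
  gunit : ∀ k, ‖g k‖ = 1
  bd : ∀ p, ‖T p‖ ≤ s
  mean : ∀ e, AvC N 𝒰 (X χ e) (if R e then 1 else 0)
  one : ∀ e, R e → G g e = 1
  coef : ∀ e, AvC N 𝒰 (fun p => T p * X χ e p) (∑ k, if R (e - Pi.single k 1) then c k else 0)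

variable [DecidableEq κ] {χ : κ → P → ℂ} {g : κ → ℂ} {T : P → ℂ} {c : κ → ℂ} {s : ℝ}
  {R : (κ → ℤ) → Prop} [DecidablePred R]

/-- the number of pairs with trivial difference -/
noncomputable def q (R : (κ → ℤ) → Prop) [DecidablePred R] (E : Finset (κ → ℤ)) : ℝ :=
  ∑ e ∈ E, ∑ f ∈ E, if R (e - f) then 1 else 0

/-- the number of pairs with difference `χ k` -/
noncomputable def qk (R : (κ → ℤ) → Prop) [DecidablePred R] (k : κ) (E : Finset (κ → ℤ)) : ℝ :=
  ∑ e ∈ E, ∑ f ∈ E, if R (e - f - Pi.single k 1) then 1 else 0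

/-- the kernel -/
noncomputable def D (χ : κ → P → ℂ) (g : κ → ℂ) (E : Finset (κ → ℤ)) (p : P) : ℂ :=
  ∑ e ∈ E, (G g e)⁻¹ * X χ e p

namespace Dat

variable (h : Dat N 𝒰 χ g T c s R)
include h

theorem bX (e : κ → ℤ) : BdC (X χ e) := ⟨1, fun p => (norm_X h.unit e p).le⟩

theorem bD (E : Finset (κ → ℤ)) : BdC (D χ g E) :=
  BdC.sum E fun e _ => (BdC.const _).mul (h.bX e)

theorem bT : BdC T := ⟨s, h.bd⟩

theorem g_ne (k : κ) : g k ≠ 0 := by
  intro h0
  have := h.gunit k
  rw [h0, norm_zero] at this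
  exact zero_ne_one this

theorem G_of {e : κ → ℤ} {k : κ} (hR : R (e - Pi.single k 1)) : G g e = g k := by
  have h1 := h.one _ hR
  rw [G_sub h.gunit, G_single] at h1
  field_simp [h.g_ne k] at h1
  exact h1

theorem D_mul (E : Finset (κ → ℤ)) (p : P) : D χ g E p * conj (D χ g E p) =
    ∑ e ∈ E, ∑ f ∈ E, (G g (e - f))⁻¹ * X χ (e - f) p := by
  unfold D
  rw [map_sum, Finset.sum_mul_sum]
  refine Finset.sum_congr rfl fun e _ => Finset.sum_congr rfl fun f _ => ?_
  rw [map_mul, map_inv₀, conj_unit (norm_G h.gunit f), conj_unit (norm_X h.unit f p),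
    G_sub h.gunit, X_eq, X_eq, X_eq, G_sub fun k => h.unit k p, mul_inv]
  ring

theorem mean_sq (E : Finset (κ → ℤ)) :
    AvC N 𝒰 (fun p => D χ g E p * conj (D χ g E p)) (q R E : ℝ) := by
  have h1 := AvC.sum h.sys E (fun e _ => BdC.sum E fun f _ => (BdC.const (G g (e - f))⁻¹).mul
    (h.bX (e - f))) fun e _ => AvC.sum h.sys E (fun f _ => (BdC.const (G g (e - f))⁻¹).mul
    (h.bX (e - f))) fun f _ => (h.mean (e - f)).const_mul h.sys (h.bX _) (G g (e - f))⁻¹
  refine h1.congr (fun p => (h.D_mul E p).symm) ?_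
  unfold q
  push_cast
  refine Finset.sum_congr rfl fun e _ => Finset.sum_congr rfl fun f _ => ?_
  split_ifs with hR
  · rw [h.one _ hR]; simp
  · simp

theorem mean_T (E : Finset (κ → ℤ)) :
    AvC N 𝒰 (fun p => T p * (D χ g E p * conj (D χ g E p))) (∑ k, c k * (g k)⁻¹ * qk R k E) := by
  have h1 := AvC.sum h.sys E (fun e _ => BdC.sum E fun f _ => (BdC.const (G g (e - f))⁻¹).mul
    (h.bT.mul (h.bX (e - f)))) fun e _ => AvC.sum h.sys E (fun f _ =>
    (BdC.const (G g (e - f))⁻¹).mul (h.bT.mul (h.bX (e - f)))) fun f _ =>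
    (h.coef (e - f)).const_mul h.sys (h.bT.mul (h.bX _)) (G g (e - f))⁻¹
  refine h1.congr (fun p => ?_) ?_
  · rw [h.D_mul E p, Finset.mul_sum]
    refine Finset.sum_congr rfl fun e _ => ?_
    rw [Finset.mul_sum]
    exact Finset.sum_congr rfl fun f _ => by ring
  · unfold qk
    push_cast
    simp only [Finset.mul_sum]
    symm
    rw [Finset.sum_comm]
    refine Finset.sum_congr rfl fun e _ => ?_
    rw [Finset.sum_comm]
    refine Finset.sum_congr rfl fun f _ => Finset.sum_congr rfl fun k _ => ?_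
    split_ifs with hR
    · rw [h.G_of hR]
      simp [mul_comm]
    · simp

theorem mean_k (k : κ) (E : Finset (κ → ℤ)) :
    AvC N 𝒰 (fun p => (g k * conj (χ k p)) * (D χ g E p * conj (D χ g E p))) (qk R k E : ℝ) := by
  have h1 := AvC.sum h.sys E (fun e _ => BdC.sum E fun f _ => (BdC.const (g k * (G g (e - f))⁻¹)).mul
    (h.bX (e - f - Pi.single k 1))) fun e _ => AvC.sum h.sys E (fun f _ =>
    (BdC.const (g k * (G g (e - f))⁻¹)).mul (h.bX (e - f - Pi.single k 1))) fun f _ =>
    (h.mean (e - f - Pi.single k 1)).const_mul h.sys (h.bX _) (g k * (G g (e - f))⁻¹)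
  refine h1.congr (fun p => ?_) ?_
  · rw [h.D_mul E p, Finset.mul_sum]
    refine Finset.sum_congr rfl fun e _ => ?_
    rw [Finset.mul_sum]
    refine Finset.sum_congr rfl fun f _ => ?_
    rw [X_eq, G_sub (fun k => h.unit k p), G_single, conj_unit (h.unit k p), X_eq]
    ring
  · unfold qk
    push_cast
    refine Finset.sum_congr rfl fun e _ => Finset.sum_congr rfl fun f _ => ?_
    split_ifs with hR
    · rw [h.G_of hR, mul_inv_cancel₀ (h.g_ne k)]
      simp
    · simp

omit h in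
theorem q_nonneg (E : Finset (κ → ℤ)) : 0 ≤ q R E :=
  Finset.sum_nonneg fun e _ => Finset.sum_nonneg fun f _ => by split_ifs <;> norm_num

omit h in
theorem q_disj {E F H : Finset (κ → ℤ)} (hE : E ⊆ H) (hF : F ⊆ H) (hd : Disjoint E F) :
    q R E + q R F ≤ q R H := by
  have hn : ∀ e f : κ → ℤ, (0 : ℝ) ≤ if R (e - f) then 1 else 0 := fun e f => by
    split_ifs <;> norm_num
  have h1 : ∀ E' : Finset (κ → ℤ), E' ⊆ H → q R E' ≤
      ∑ e ∈ E', ∑ f ∈ H, if R (e - f) then 1 else 0 := fun E' hE' =>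
    Finset.sum_le_sum fun e _ => Finset.sum_le_sum_of_subset_of_nonneg hE' fun f _ _ => hn e f
  refine (add_le_add (h1 E hE) (h1 F hF)).trans ?_
  rw [← Finset.sum_union hd]
  exact Finset.sum_le_sum_of_subset_of_nonneg (Finset.union_subset hE hF) fun e _ _ =>
    Finset.sum_nonneg fun f _ => hn e f

omit h in
theorem q_shift (E : Finset (κ → ℤ)) (d : κ → ℤ) :
    q R (E.map (Equiv.addRight d).toEmbedding) = q R E := by
  unfold q
  rw [Finset.sum_map]
  refine Finset.sum_congr rfl fun e _ => ?_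
  rw [Finset.sum_map]
  refine Finset.sum_congr rfl fun f _ => ?_
  have : (Equiv.addRight d).toEmbedding e - (Equiv.addRight d).toEmbedding f = e - f := by
    simp
  rw [this]

/-- the difference between the kernel and its translate -/
theorem shift_eq (k : κ) (E : Finset (κ → ℤ)) (p : P) :
    ((g k)⁻¹ * χ k p - 1) * D χ g E p =
      D χ g ((E.map (Equiv.addRight (Pi.single k 1)).toEmbedding) \ E) p -
        D χ g (E \ (E.map (Equiv.addRight (Pi.single k 1)).toEmbedding)) p := by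
  set E' := E.map (Equiv.addRight (Pi.single k 1)).toEmbedding with hE'
  have h1 : (g k)⁻¹ * χ k p * D χ g E p = D χ g E' p := by
    unfold D
    rw [hE', Finset.sum_map, Finset.mul_sum]
    refine Finset.sum_congr rfl fun e _ => ?_
    have h2 : (Equiv.addRight (Pi.single k 1 : κ → ℤ)).toEmbedding e = e + Pi.single k 1 := rfl
    rw [h2, G_add h.gunit, X_eq, X_eq, G_add (fun k => h.unit k p), G_single, G_single, mul_inv]
    ring
  have h2 : ∀ A B : Finset (κ → ℤ), D χ g A p = D χ g (A \ B) p + D χ g (A ∩ B) p := by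
    intro A B
    unfold D
    rw [← Finset.sum_union (Finset.disjoint_sdiff_inter A B), Finset.sdiff_union_inter]
  rw [sub_mul, one_mul, h1, h2 E' E, h2 E E', Finset.inter_comm E E']
  ring

theorem compare (k : κ) (E H : Finset (κ → ℤ)) (hE : E ⊆ H)
    (hE' : E.map (Equiv.addRight (Pi.single k 1)).toEmbedding ⊆ H) :
    0 ≤ q R E - qk R k E ∧ q R E - qk R k E ≤ 2 * (q R H - q R E) := by
  set E' := E.map (Equiv.addRight (Pi.single k 1)).toEmbedding with hE'd
  -- the mean value of the square of the difference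
  have hb : BdC fun p => (g k * conj (χ k p)) * (D χ g E p * conj (D χ g E p)) :=
    ((BdC.const (g k)).mul (BdC.conj ⟨1, fun p => (h.unit k p).le⟩)).mul
      ((h.bD E).mul (h.bD E).conj)
  have hbD : ∀ F, BdC fun p => D χ g F p * conj (D χ g F p) := fun F => (h.bD F).mul (h.bD F).conj
  have hW := Av.sub h.sys ((hbD E).re.const_mul 2) (hb.re.const_mul 2)
    ((h.mean_sq E).1.const_mul 2) ((h.mean_k k E).1.const_mul 2)
  have hWe : ∀ p, 2 * (D χ g E p * conj (D χ g E p)).re -
      2 * ((g k * conj (χ k p)) * (D χ g E p * conj (D χ g E p))).re =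
      ‖((g k)⁻¹ * χ k p - 1) * D χ g E p‖ ^ 2 := by
    intro p
    rw [norm_mul, mul_pow, norm_sq_re (D χ g E p)]
    have h2 : ((D χ g E p * conj (D χ g E p)).re : ℂ) = D χ g E p * conj (D χ g E p) := by
      rw [Complex.mul_conj, Complex.ofReal_re]
    have h3 : ((g k * conj (χ k p)) * (D χ g E p * conj (D χ g E p))).re =
        (g k * conj (χ k p)).re * (D χ g E p * conj (D χ g E p)).re := by
      rw [← h2, Complex.re_mul_ofReal, Complex.ofReal_re]
    have h4 : ‖(g k)⁻¹ * χ k p - 1‖ ^ 2 = 2 - 2 * (g k * conj (χ k p)).re := by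
      have e1 : (g k)⁻¹ * χ k p = conj (g k * conj (χ k p)) := by
        rw [map_mul, Complex.conj_conj, conj_unit (h.gunit k)]
      have e2 : ‖g k * conj (χ k p)‖ = 1 := by
        rw [norm_mul, Complex.norm_conj, h.gunit, h.unit, one_mul]
      set u := g k * conj (χ k p) with hu
      rw [e1, norm_sq_re, map_sub, Complex.conj_conj, map_one, sub_mul, mul_sub, mul_sub]
      have e3 : conj u * u = 1 := by
        rw [conj_unit e2, inv_mul_cancel₀]
        intro h0
        rw [h0, norm_zero] at e2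
        exact zero_ne_one e2
      rw [e3]
      simp
      ring
    rw [h3, h4]
    ring
  have h0 : 0 ≤ 2 * q R E - 2 * qk R k E := by
    have := Av.nonneg h.sys (hW.congr hWe rfl) fun p => sq_nonneg _
    simpa using this
  refine ⟨by linarith, ?_⟩
  have hP := Av.add h.sys ((hbD (E' \ E)).re.const_mul 2) ((hbD (E \ E')).re.const_mul 2)
    ((h.mean_sq (E' \ E)).1.const_mul 2) ((h.mean_sq (E \ E')).1.const_mul 2)
  have hle := Av.mono h.sys (((hbD E).re.const_mul 2).sub (hb.re.const_mul 2))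
    (((hbD (E' \ E)).re.const_mul 2).add ((hbD (E \ E')).re.const_mul 2)) hW hP fun p => by
      rw [hWe, h.shift_eq k E p, ← norm_sq_re, ← norm_sq_re]
      have h1 := norm_sub_le (D χ g (E' \ E) p) (D χ g (E \ E') p)
      have h2 := norm_nonneg (D χ g (E' \ E) p - D χ g (E \ E') p)
      nlinarith [sq_nonneg (‖D χ g (E' \ E) p‖ - ‖D χ g (E \ E') p‖)]
  have h1 : q R E + q R (E' \ E) ≤ q R H :=
    q_disj hE (Finset.sdiff_subset.trans hE') Finset.disjoint_sdiff
  have h2 : q R E' + q R (E \ E') ≤ q R H :=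
    q_disj hE' (Finset.sdiff_subset.trans hE) Finset.disjoint_sdiff
  rw [hE'd, q_shift, ← hE'd] at h2
  simp only [Complex.ofReal_re] at hle
  linarith

theorem R_zero : R 0 := by
  by_contra h0
  have h1 := h.mean 0
  rw [if_neg h0] at h1
  have h2 : AvC N 𝒰 (X χ 0) 1 := (AvC.const h.sys 1).congr (fun p => by
    unfold X
    simp) rfl
  exact zero_ne_one (h1.unique h2)

omit h in
/-- boxes -/
noncomputable def box (κ : Type) [Fintype κ] [DecidableEq κ] (n : ℕ) : Finset (κ → ℤ) :=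
  Fintype.piFinset fun _ => Finset.Ico (0 : ℤ) n

omit h in
theorem mem_box {n : ℕ} {e : κ → ℤ} : e ∈ box κ n ↔ ∀ k, 0 ≤ e k ∧ e k < n := by
  unfold box
  simp

omit h in
theorem q_box_le (n : ℕ) : q R (box κ n) ≤ ((n : ℝ) ^ (Fintype.card κ)) ^ 2 := by
  have hc : (box κ n).card = n ^ Fintype.card κ := by
    unfold box
    simp
  unfold q
  calc ∑ e ∈ box κ n, ∑ f ∈ box κ n, (if R (e - f) then (1 : ℝ) else 0)
      ≤ ∑ e ∈ box κ n, ∑ f ∈ box κ n, 1 := Finset.sum_le_sum fun e _ =>
        Finset.sum_le_sum fun f _ => by split_ifs <;> norm_num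
    _ = _ := by
        simp only [Finset.sum_const, nsmul_eq_mul, mul_one, hc]
        push_cast
        ring

theorem q_box_one : 1 ≤ q R (box κ 1) := by
  have h1 : box κ 1 = {0} := by
    ext e
    rw [mem_box, Finset.mem_singleton]
    constructor
    · intro h2
      funext k
      have := h2 k
      simp only [Pi.zero_apply]
      push_cast at this
      omega
    · rintro rfl k
      simp
  rw [h1]
  unfold q
  rw [Finset.sum_singleton, Finset.sum_singleton, sub_self, if_pos h.R_zero]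

omit h in
theorem box_mono (n : ℕ) : box κ n ⊆ box κ (n + 1) := by
  intro e he
  rw [mem_box] at he ⊢
  intro k
  have := he k
  push_cast
  omega

omit h in
theorem box_shift (n : ℕ) (k : κ) :
    (box κ n).map (Equiv.addRight (Pi.single k 1)).toEmbedding ⊆ box κ (n + 1) := by
  intro e he
  rw [Finset.mem_map] at he
  obtain ⟨f, hf, rfl⟩ := he
  rw [mem_box] at hf ⊢
  intro l
  have := hf l
  have h1 : (Equiv.addRight (Pi.single k 1 : κ → ℤ)).toEmbedding f l = f l +
      (Pi.single k 1 : κ → ℤ) l := rfl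
  rw [h1]
  push_cast
  by_cases hl : l = k
  · subst hl
    rw [Pi.single_eq_same]
    omega
  · rw [Pi.single_eq_of_ne hl]
    omega

/-- **The sup norm inequality.** -/
theorem sup (hs : 0 ≤ s) : ‖∑ k, c k * (g k)⁻¹‖ ≤ s := by
  set Sg : ℂ := ∑ k, c k * (g k)⁻¹ with hSg
  set C : ℝ := ∑ k, ‖c k‖ with hC
  have hC0 : 0 ≤ C := Finset.sum_nonneg fun k _ => norm_nonneg _
  refine le_of_forall_pos_le_add fun η hη => ?_
  set δ : ℝ := η / (2 * C + 1) with hδ
  have hδ0 : 0 < δ := by positivity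
  obtain ⟨n, hn1, hn2, hn3⟩ := subexp (a := fun n => q R (box κ n)) (d := Fintype.card κ)
    h.q_box_one q_box_le hδ0
  set E := box κ n with hE
  set a := q R E with ha
  have hcmp := fun k => h.compare k E (box κ (n + 1)) (box_mono n) (box_shift n k)
  have hgap : ∀ k, |qk R k E - a| ≤ 2 * (δ * a) := by
    intro k
    obtain ⟨h1, h2⟩ := hcmp k
    rw [abs_le]
    constructor
    · have : q R (box κ (n + 1)) - q R E ≤ δ * a := by
        rw [← ha]
        linarith
      linarith
    · have : 0 ≤ 2 * (δ * a) := by positivity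
      linarith
  -- the upper bound
  have hup : ‖∑ k, c k * (g k)⁻¹ * qk R k E‖ ≤ s * a := by
    set Z : ℂ := ∑ k, c k * (g k)⁻¹ * qk R k E with hZ
    by_cases hZ0 : Z = 0
    · rw [hZ0, norm_zero]
      positivity
    · set u : ℂ := conj Z / ‖Z‖ with hu
      have hZn : (‖Z‖ : ℂ) ≠ 0 := by
        rw [Ne, Complex.ofReal_eq_zero, norm_eq_zero]
        exact hZ0
      have hun : ‖u‖ = 1 := by
        rw [hu, norm_div, Complex.norm_conj, Complex.norm_real, norm_norm, div_self]
        exact norm_ne_zero_iff.2 hZ0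
      have huZ : u * Z = ‖Z‖ := by
        rw [hu, div_mul_eq_mul_div, mul_comm (conj Z), Complex.mul_conj,
          Complex.normSq_eq_norm_sq, div_eq_iff hZn]
        push_cast
        ring
      have hbDD : BdC fun p => D χ g E p * conj (D χ g E p) := (h.bD E).mul (h.bD E).conj
      have h1 := ((h.mean_T E).const_mul h.sys (h.bT.mul hbDD) u).1
      have h2 := (h.mean_sq E).1.const_mul s
      have h3 := Av.mono h.sys ((BdC.const u).mul (h.bT.mul hbDD)).re (hbDD.re.const_mul s) h1 h2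
        fun p => by
          have h4 : (D χ g E p * conj (D χ g E p)).re = ‖D χ g E p‖ ^ 2 := (norm_sq_re _).symm
          rw [h4]
          refine (le_abs_self _).trans ((Complex.abs_re_le_norm _).trans ?_)
          rw [norm_mul, norm_mul, norm_mul, hun, one_mul, Complex.norm_conj, pow_two]
          exact mul_le_mul_of_nonneg_right (h.bd p) (by positivity)
      rw [← hZ, huZ] at h3
      simpa using h3
  have hdiff : Sg * a = (∑ k, c k * (g k)⁻¹ * qk R k E) -
      ∑ k, c k * (g k)⁻¹ * ((qk R k E - a : ℝ) : ℂ) := by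
    rw [hSg, Finset.sum_mul, ← Finset.sum_sub_distrib]
    refine Finset.sum_congr rfl fun k _ => ?_
    push_cast
    ring
  have ha1 : 1 ≤ a := hn3
  have h5 : ‖Sg * a‖ ≤ s * a + C * (2 * (δ * a)) := by
    rw [hdiff]
    refine (norm_sub_le _ _).trans (add_le_add hup ?_)
    refine (norm_sum_le _ _).trans ?_
    rw [hC, Finset.sum_mul]
    refine Finset.sum_le_sum fun k _ => ?_
    rw [norm_mul, norm_mul, norm_inv, h.gunit, inv_one, mul_one, Complex.norm_real,
      Real.norm_eq_abs]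
    exact mul_le_mul_of_nonneg_left (hgap k) (norm_nonneg _)
  rw [norm_mul, Complex.norm_real, Real.norm_eq_abs, abs_of_pos (by linarith)] at h5
  have h6 : ‖Sg‖ ≤ s + C * (2 * δ) := by
    have h7 : ‖Sg‖ * a ≤ (s + C * (2 * δ)) * a := by
      calc _ ≤ _ := h5
        _ = _ := by ring
    exact le_of_mul_le_mul_right h7 (by linarith)
  have h8 : C * (2 * δ) ≤ η := by
    rw [hδ]
    have : C * (2 * (η / (2 * C + 1))) = η * (2 * C / (2 * C + 1)) := by
      field_simp
    rw [this]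
    refine mul_le_of_le_one_right hη.le ?_
    rw [div_le_one (by positivity)]
    linarith
  linarith

end Dat

end

end Pool.Agent.HS37.HK
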