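import Pool.Agent.HS37.HK.Hec
import Pool.Agent.HS37.HK.Pair
import Pool.Agent.HS37.HK.Sup

/-!
# Mean values of the trace of Frobenius against Hecke characters
-/

set_option autoImplicit false
set_option linter.unusedSectionVars false

open NumberField Complex Filter Topology ComplexConjugate IsDedekindDomain

namespace Pool.Agent.HS37.HK

open Pool.Agent.H341R2 Pool.Agent.W540.BE

section

variable {K : Type} [Field K] [NumberField K] {𝒰 : Ultrafilter ℝ}

/-- almost everywhere equal -/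
def AE (χ χ' : HeightOneSpectrum (𝓞 K) → ℂ) : Prop := ∀ᶠ v in cofinite, χ v = χ' v

theorem AE.symm {χ χ' : HeightOneSpectrum (𝓞 K) → ℂ} (h : AE χ χ') : AE χ' χ :=
  Filter.Eventually.mono h fun _ hv => hv.symm

theorem AE.trans {χ χ' χ'' : HeightOneSpectrum (𝓞 K) → ℂ} (h : AE χ χ') (h' : AE χ' χ'') :
    AE χ χ'' := by
  filter_upwards [h, h'] with v h1 h2
  rw [h1, h2]

theorem Hk.bdc {χ : HeightOneSpectrum (𝓞 K) → ℂ} (h : Hk χ) : BdC χ := ⟨1, fun v => (h.1 v).le⟩

theorem mul_conj_one {z w : ℂ} (hw : ‖w‖ = 1) (h : z * conj w = 1) : z = w := by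
  have h1 : w ≠ 0 := by
    intro h0
    rw [h0, norm_zero] at hw
    exact zero_ne_one hw
  rw [conj_unit' hw] at h
  field_simp at h
  exact h

theorem orth {χ χ' : HeightOneSpectrum (𝓞 K) → ℂ} (h : Hk χ) (h' : Hk χ') (hne : ¬ AE χ χ')
    (hS : Sys (nm (K := K)) 𝒰) : AvC nm 𝒰 (fun v => χ v * conj (χ' v)) 0 := by
  refine (h.mul h'.conj).mean (fun h1 => hne ?_) hS
  filter_upwards [h1] with v hv
  exact mul_conj_one (h'.1 v) hv

/-- Bessel -/
theorem besselK (hS : Sys (nm (K := K)) 𝒰) {κ : Type*} (S : Finset κ)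
    {T : HeightOneSpectrum (𝓞 K) → ℂ} {s : ℝ} (hs : 0 ≤ s) (hT : ∀ v, ‖T v‖ ≤ s)
    {χ : κ → HeightOneSpectrum (𝓞 K) → ℂ} (hχ : ∀ k ∈ S, Hk (χ k))
    (hne : ∀ k ∈ S, ∀ l ∈ S, k ≠ l → ¬ AE (χ k) (χ l)) {x : κ → ℝ}
    (hx : ∀ k ∈ S, Av nm 𝒰 (fun v => (T v * χ k v).re) (x k)) : ∑ k ∈ S, x k ^ 2 ≤ s ^ 2 :=
  bessel hS S hs hT (fun k hk v => ((hχ k hk).1 v).le)
    (fun k hk l hl hkl => (orth (hχ k hk) (hχ l hl) (hne k hk l hl hkl) hS).1) hx

theorem Hk.pow {χ : HeightOneSpectrum (𝓞 K) → ℂ} (h : Hk χ) (n : ℕ) : Hk fun v => χ v ^ n := by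
  induction n with
  | zero => simpa using Hk.one
  | succ n ih => simpa [pow_succ] using ih.mul h

/-- infinite order -/
def Inford (χ : HeightOneSpectrum (𝓞 K) → ℂ) : Prop :=
  ∀ n : ℕ, 0 < n → ¬ ∀ᶠ v in cofinite, χ v ^ n = 1

theorem Inford.conj {χ : HeightOneSpectrum (𝓞 K) → ℂ} (h : Inford χ) :
    Inford fun v => conj (χ v) := by
  intro n hn h1
  refine h n hn ?_
  filter_upwards [h1] with v hv
  have h2 := congrArg conj hv
  simpa using h2

theorem Inford.neg_pow {χ : HeightOneSpectrum (𝓞 K) → ℂ} (h : Inford χ) {n : ℕ} (hn : 0 < n) :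
    ¬ ∀ᶠ v in cofinite, χ v ^ n = 1 := h n hn

theorem zpow_mean {χ : HeightOneSpectrum (𝓞 K) → ℂ} (h : Hk χ) (hi : Inford χ)
    (hS : Sys (nm (K := K)) 𝒰) (m : ℤ) (hm : m ≠ 0) :
    Av nm 𝒰 (fun v => (χ v ^ m).re) 0 := by
  rcases Int.lt_or_gt_of_ne hm with h1 | h1
  · obtain ⟨n, rfl⟩ : ∃ n : ℕ, m = -(n : ℤ) := ⟨m.natAbs, by omega⟩
    have hn : 0 < n := by omega
    have h2 := ((h.pow n).mean (hi n hn) hS).1
    refine h2.congr (fun v => ?_) rfl
    rw [zpow_neg, zpow_natCast]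
    have h3 : ‖χ v ^ n‖ = 1 := by rw [norm_pow, h.1, one_pow]
    rw [← conj_unit' h3, Complex.conj_re]
  · obtain ⟨n, rfl⟩ : ∃ n : ℕ, m = (n : ℤ) := ⟨m.natAbs, by omega⟩
    have hn : 0 < n := by omega
    have h2 := ((h.pow n).mean (hi n hn) hS).1
    exact h2.congr (fun v => by rw [zpow_natCast]) rfl

/-- the first moment -/
theorem firstK (hS : Sys (nm (K := K)) 𝒰) {T : HeightOneSpectrum (𝓞 K) → ℝ} {s : ℝ}
    (hs : 0 ≤ s) (hT : ∀ v, |T v| ≤ s) {χ : HeightOneSpectrum (𝓞 K) → ℂ} (hχ : Hk χ)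
    (hi : Inford χ) {x : ℝ} (hx : Av nm 𝒰 (fun v => ((T v : ℂ) * χ v).re) x) :
    |x| ≤ 2 * s / Real.pi := by
  have hb : Bd fun v => (χ v).re := hχ.bdc.re
  obtain ⟨y, hy⟩ := hS.exists hb.abs
  have h1 := mean_abs hS hχ.1 (zpow_mean hχ hi hS) hy
  have hTb : Bd T := ⟨s, hT⟩
  have hx' : Av nm 𝒰 (fun v => T v * (χ v).re) x :=
    hx.congr (fun v => by rw [Complex.re_ofReal_mul]) rfl
  have h2 : x ≤ s * y := Av.mono hS (hTb.mul hb) (hb.abs.const_mul s) hx' (hy.const_mul s)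
    fun v => by
      refine (le_abs_self _).trans ?_
      rw [abs_mul]
      exact mul_le_mul_of_nonneg_right (hT v) (abs_nonneg _)
  have h3 : -x ≤ s * y := by
    refine Av.mono hS ((hTb.mul hb).const_mul (-1)) (hb.abs.const_mul s)
      ((hx'.const_mul (-1)).congr (fun _ => rfl) (by ring)) (hy.const_mul s) fun v => ?_
    refine (le_abs_self _).trans ?_
    rw [abs_mul, abs_mul, abs_neg, abs_one, one_mul]
    exact mul_le_mul_of_nonneg_right (hT v) (abs_nonneg _)
  have h4 : s * y ≤ 2 * s / Real.pi := by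
    calc s * y ≤ s * (2 / Real.pi) := mul_le_mul_of_nonneg_left h1 hs
      _ = _ := by ring
  exact abs_le.2 ⟨by linarith, by linarith⟩

/-- `χ ^ a * χ' ^ b` -/
theorem pair_mean {χ χ' : HeightOneSpectrum (𝓞 K) → ℂ} (h : Hk χ) (h' : Hk χ') (a b : ℕ)
    (hne : ¬ ∀ᶠ v in cofinite, χ v ^ a * χ' v ^ b = 1) (hS : Sys (nm (K := K)) 𝒰) :
    AvC nm 𝒰 (fun v => χ v ^ a * χ' v ^ b) 0 := ((h.pow a).mul (h'.pow b)).mean hne hS

theorem Hk.sq_nonneg' {χ : HeightOneSpectrum (𝓞 K) → ℂ} (h : Hk χ)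
    (hS : Sys (nm (K := K)) 𝒰) : ∃ e : ℝ, 0 ≤ e ∧ Av nm 𝒰 (fun v => (χ v).re) e := by
  by_cases h1 : ∀ᶠ v in cofinite, χ v = 1
  · exact ⟨1, zero_le_one, (mean_one h1 hS).1⟩
  · exact ⟨0, le_rfl, (h.mean h1 hS).1⟩

/-- two characters, with the two additional relations excluded -/
theorem pair_aux (hS : Sys (nm (K := K)) 𝒰) {χ χ' : HeightOneSpectrum (𝓞 K) → ℂ}
    (h : Hk χ) (h' : Hk χ') (hi : Inford χ) (hi' : Inford χ') (hne : ¬ AE χ χ')
    (hnc : ¬ AE χ fun v => conj (χ' v))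
    (h31 : ¬ ∀ᶠ v in cofinite, χ v ^ 3 * χ' v = 1) (h13 : ¬ ∀ᶠ v in cofinite, χ v * χ' v ^ 3 = 1)
    {σ : ℝ} (hσ : σ = 1 ∨ σ = -1) {y : ℝ}
    (hy : Av nm 𝒰 (fun v => |(χ v).re + σ * (χ' v).re|) y) : y ≤ 35 / 36 := by
  have hσ2 : σ ^ 2 = 1 := by rcases hσ with rfl | rfl <;> norm_num
  have hσc : ((σ : ℂ)) ^ 2 = (1 : ℂ) := by exact_mod_cast hσ2
  have hσ3 : ((σ : ℂ)) ^ 3 = (σ : ℂ) := by
    have e1 : ((σ : ℂ)) ^ 3 = (σ : ℂ) ^ 2 * (σ : ℂ) := by ring
    rw [e1, hσc, one_mul]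
  have hσn : ‖(σ : ℂ)‖ = 1 := by
    rw [Complex.norm_real]
    rcases hσ with rfl | rfl <;> simp
  have z2 : Av nm 𝒰 (fun v => (χ v ^ 2).re) 0 := ((h.pow 2).mean (hi 2 (by norm_num)) hS).1
  have w2 : Av nm 𝒰 (fun v => (χ' v ^ 2).re) 0 := ((h'.pow 2).mean (hi' 2 (by norm_num)) hS).1
  have m11 : AvC nm 𝒰 (fun v => χ v * χ' v) 0 := by
    refine (h.mul h').mean (fun h1 => hnc ?_) hS
    filter_upwards [h1] with v hv
    refine mul_conj_one (by rw [Complex.norm_conj, h'.1]) ?_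
    rw [Complex.conj_conj]
    exact hv
  have m1m := orth h h' hne hS
  have m31 : AvC nm 𝒰 (fun v => χ v ^ 3 * χ' v) 0 := ((h.pow 3).mul h').mean h31 hS
  have m13 : AvC nm 𝒰 (fun v => χ v * χ' v ^ 3) 0 := (h.mul (h'.pow 3)).mean h13 hS
  obtain ⟨e, he, m22⟩ := ((h.pow 2).mul (h'.pow 2)).sq_nonneg' hS
  have sc : ∀ {g : HeightOneSpectrum (𝓞 K) → ℂ}, AvC nm 𝒰 g 0 →
      Av nm 𝒰 (fun v => ((σ : ℂ) * g v).re) 0 := by
    intro g hg
    refine (hg.1.const_mul σ).congr (fun v => ?_) (by simp)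
    rw [Complex.re_ofReal_mul]
  refine pair hS (z := χ) (w := fun v => (σ : ℂ) * χ' v) h.1 (fun v => by rw [norm_mul, hσn, h'.1,
    one_mul]) z2 ?_ ?_ ?_ ?_ ?_ (e := e) ?_ he (y := y) ?_
  · refine w2.congr (fun v => ?_) rfl
    rw [mul_pow, hσc, one_mul]
  · refine (sc m11).congr (fun v => ?_) rfl
    congr 1
    ring
  · refine (sc m1m).congr (fun v => ?_) rfl
    congr 1
    rw [map_mul, Complex.conj_ofReal]
    ring
  · refine (sc m31).congr (fun v => ?_) rfl
    congr 1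
    ring
  · refine (sc m13).congr (fun v => ?_) rfl
    congr 1
    rw [mul_pow, hσ3]
    ring
  · refine m22.congr (fun v => ?_) rfl
    rw [mul_pow, hσc, one_mul]
  · refine hy.congr (fun v => ?_) rfl
    rw [Complex.re_ofReal_mul]

/-- two characters -/
theorem pair_all (hS : Sys (nm (K := K)) 𝒰) {χ χ' : HeightOneSpectrum (𝓞 K) → ℂ}
    (h : Hk χ) (h' : Hk χ') (hi : Inford χ) (hi' : Inford χ') (hne : ¬ AE χ χ')
    (hnc : ¬ AE χ fun v => conj (χ' v))
    {σ : ℝ} (hσ : σ = 1 ∨ σ = -1) {y : ℝ}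
    (hy : Av nm 𝒰 (fun v => |(χ v).re + σ * (χ' v).re|) y) : y ≤ 35 / 36 := by
  -- replace `χ'` by its conjugate if necessary
  have hc : ∀ v, conj (χ' v) * χ' v = 1 := by
    intro v
    rw [mul_comm, Complex.mul_conj, Complex.normSq_eq_norm_sq, h'.1]
    simp
  have step : ∀ {a b c d : ℕ}, 0 < a * d + b * c →
      (∀ᶠ v in cofinite, χ v ^ a * χ' v ^ b = 1) →
      (∀ᶠ v in cofinite, χ v ^ c * conj (χ' v) ^ d = 1) → False := by
    intro a b c d hpos h1 h2
    refine hi (a * d + b * c) hpos ?_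
    filter_upwards [h1, h2] with v k1 k2
    have e1 : conj (χ' v) ^ (b * d) * χ' v ^ (b * d) = 1 := by
      rw [← mul_pow, hc, one_pow]
    calc χ v ^ (a * d + b * c)
        = χ v ^ (a * d + b * c) * (conj (χ' v) ^ (b * d) * χ' v ^ (b * d)) := by rw [e1, mul_one]
      _ = (χ v ^ a * χ' v ^ b) ^ d * (χ v ^ c * conj (χ' v) ^ d) ^ b := by
          rw [mul_pow, mul_pow, ← pow_mul, ← pow_mul, ← pow_mul, ← pow_mul, pow_add,
            mul_comm b c, mul_comm d b]
          ring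
      _ = 1 := by rw [k1, k2, one_pow, one_pow, one_mul]
  by_cases hA : (∀ᶠ v in cofinite, χ v ^ 3 * χ' v = 1) ∨ ∀ᶠ v in cofinite, χ v * χ' v ^ 3 = 1
  · -- use the conjugate
    have hy' : Av nm 𝒰 (fun v => |(χ v).re + σ * (conj (χ' v)).re|) y :=
      hy.congr (fun v => by rw [Complex.conj_re]) rfl
    have hne' : ¬ AE χ fun v => conj (conj (χ' v)) := by
      intro h1
      apply hne
      filter_upwards [h1] with v hv
      rwa [Complex.conj_conj] at hv
    refine pair_aux hS h h'.conj hi hi'.conj hnc hne' ?_ ?_ hσ hy'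
    · intro h1
      have h1' : ∀ᶠ v in cofinite, χ v ^ 3 * conj (χ' v) ^ 1 = 1 := by simpa using h1
      rcases hA with h2 | h2
      · exact step (a := 3) (b := 1) (c := 3) (d := 1) (by norm_num) (by simpa using h2) h1'
      · exact step (a := 1) (b := 3) (c := 3) (d := 1) (by norm_num) (by simpa using h2) h1'
    · intro h1
      have h1' : ∀ᶠ v in cofinite, χ v ^ 1 * conj (χ' v) ^ 3 = 1 := by simpa using h1
      rcases hA with h2 | h2
      · exact step (a := 3) (b := 1) (c := 1) (d := 3) (by norm_num) (by simpa using h2) h1'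
      · exact step (a := 1) (b := 3) (c := 1) (d := 3) (by norm_num) (by simpa using h2) h1'
  · exact pair_aux hS h h' hi hi' hne hnc (fun h1 => hA (Or.inl h1)) (fun h1 => hA (Or.inr h1)) hσ hy

/-- two characters: the inequality -/
theorem pairK (hS : Sys (nm (K := K)) 𝒰) {T : HeightOneSpectrum (𝓞 K) → ℝ} {s : ℝ}
    (hs : 0 ≤ s) (hT : ∀ v, |T v| ≤ s) {χ χ' : HeightOneSpectrum (𝓞 K) → ℂ}
    (h : Hk χ) (h' : Hk χ') (hi : Inford χ) (hi' : Inford χ') (hne : ¬ AE χ χ')
    (hnc : ¬ AE χ fun v => conj (χ' v)) {x x' : ℝ}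
    (hx : Av nm 𝒰 (fun v => ((T v : ℂ) * χ v).re) x)
    (hx' : Av nm 𝒰 (fun v => ((T v : ℂ) * χ' v).re) x') : |x| + |x'| ≤ 35 / 36 * s := by
  have hTb : Bd T := ⟨s, hT⟩
  have hb := h.bdc.re
  have hb' := h'.bdc.re
  have e1 : Av nm 𝒰 (fun v => T v * (χ v).re) x :=
    hx.congr (fun v => by rw [Complex.re_ofReal_mul]) rfl
  have e2 : Av nm 𝒰 (fun v => T v * (χ' v).re) x' :=
    hx'.congr (fun v => by rw [Complex.re_ofReal_mul]) rfl
  have key : ∀ σ : ℝ, (σ = 1 ∨ σ = -1) → |x + σ * x'| ≤ 35 / 36 * s := by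
    intro σ hσ
    have hb2 : Bd fun v => (χ v).re + σ * (χ' v).re := hb.add (hb'.const_mul σ)
    obtain ⟨y, hy⟩ := hS.exists hb2.abs
    have h1 := pair_all hS h h' hi hi' hne hnc hσ hy
    have e3 : Av nm 𝒰 (fun v => T v * ((χ v).re + σ * (χ' v).re)) (x + σ * x') :=
      (Av.add hS (hTb.mul hb) ((hTb.mul hb').const_mul σ) e1 (e2.const_mul σ)).congr
        (fun v => by ring) rfl
    have h2 : x + σ * x' ≤ s * y := Av.mono hS (hTb.mul hb2) (hb2.abs.const_mul s) e3
      (hy.const_mul s) fun v => by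
        refine (le_abs_self _).trans ?_
        rw [abs_mul]
        exact mul_le_mul_of_nonneg_right (hT v) (abs_nonneg _)
    have h3 : -(x + σ * x') ≤ s * y := by
      refine Av.mono hS ((hTb.mul hb2).const_mul (-1)) (hb2.abs.const_mul s)
        ((e3.const_mul (-1)).congr (fun _ => rfl) (by ring)) (hy.const_mul s) fun v => ?_
      refine (le_abs_self _).trans ?_
      rw [abs_mul, abs_mul, abs_neg, abs_one, one_mul]
      exact mul_le_mul_of_nonneg_right (hT v) (abs_nonneg _)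
    have h4 : s * y ≤ 35 / 36 * s := by
      calc s * y ≤ s * (35 / 36) := mul_le_mul_of_nonneg_left h1 hs
        _ = _ := by ring
    exact abs_le.2 ⟨by linarith, by linarith⟩
  have k1 := abs_le.1 (key 1 (Or.inl rfl))
  have k2 := abs_le.1 (key (-1) (Or.inr rfl))
  rcases abs_cases x with ⟨a1, -⟩ | ⟨a1, -⟩ <;> rcases abs_cases x' with ⟨a2, -⟩ | ⟨a2, -⟩ <;>
    rw [a1, a2] <;> linarith [k1.1, k1.2, k2.1, k2.2]

/-! ## the sup norm -/

theorem Hk.zpow {χ : HeightOneSpectrum (𝓞 K) → ℂ} (h : Hk χ) (m : ℤ) : Hk fun v => χ v ^ m := by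
  rcases Int.eq_nat_or_neg m with ⟨n, rfl | rfl⟩
  · simpa using h.pow n
  · have h1 := (h.pow n).conj
    refine (funext fun v => ?_ : (fun v => conj (χ v ^ n)) = fun v => χ v ^ (-(n : ℤ))) ▸ h1
    rw [zpow_neg, zpow_natCast, conj_unit' (by rw [norm_pow, h.1, one_pow])]

theorem Hk.prod {κ : Type*} (S : Finset κ) {χ : κ → HeightOneSpectrum (𝓞 K) → ℂ}
    (h : ∀ k ∈ S, Hk (χ k)) : Hk fun v => ∏ k ∈ S, χ k v := by
  classical
  induction S using Finset.induction_on with
  | empty => simpa using Hk.one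
  | insert a s ha ih =>
    have h1 := (h a (Finset.mem_insert_self a s)).mul
      (ih fun k hk => h k (Finset.mem_insert_of_mem hk))
    refine (funext fun v => ?_ : (fun v => χ a v * ∏ k ∈ s, χ k v) =
      fun v => ∏ k ∈ insert a s, χ k v) ▸ h1
    rw [Finset.prod_insert ha]

theorem Hk.X {κ : Type} [Fintype κ] {χ : κ → HeightOneSpectrum (𝓞 K) → ℂ}
    (h : ∀ k, Hk (χ k)) (e : κ → ℤ) : Hk (X χ e) :=
  Hk.prod Finset.univ fun k _ => (h k).zpow (e k)

/-- the sup norm inequality at the unit element and at almost all primes -/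
theorem supK (hS : Sys (nm (K := K)) 𝒰) {κ : Type} [Fintype κ]
    {T : HeightOneSpectrum (𝓞 K) → ℂ} {s : ℝ} (hs : 0 ≤ s) (hT : ∀ v, ‖T v‖ ≤ s)
    {χ : κ → HeightOneSpectrum (𝓞 K) → ℂ} (hχ : ∀ k, Hk (χ k))
    (hne : ∀ k l, k ≠ l → ¬ AE (χ k) (χ l)) {m : κ → ℤ}
    (hm : ∀ χ' : HeightOneSpectrum (𝓞 K) → ℂ, Hk χ' →
      (∀ k, AE χ' (χ k) → AvC nm 𝒰 (fun v => T v * χ' v) (-(m k))) ∧
      ((∀ k, ¬ AE χ' (χ k)) → AvC nm 𝒰 (fun v => T v * χ' v) 0)) :
    |((∑ k, m k : ℤ) : ℝ)| ≤ s ∧ ∀ᶠ v in cofinite, ‖∑ k, (m k : ℂ) * χ k v‖ ≤ s := by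
  classical
  set R : (κ → ℤ) → Prop := fun e => AE (X χ e) fun _ => 1 with hR
  have hdiff : ∀ (e : κ → ℤ) (k : κ), R (e - Pi.single k 1) ↔ AE (X χ e) (χ k) := by
    intro e k
    have h1 : ∀ v, X χ (e - Pi.single k 1) v = X χ e v * (χ k v)⁻¹ := by
      intro v
      rw [X_eq, X_eq, G_sub (fun k => (hχ k).1 v), G_single]
    have h2 : ∀ v, χ k v ≠ 0 := by
      intro v h0
      have := (hχ k).1 v
      rw [h0, norm_zero] at this
      exact zero_ne_one this
    rw [hR]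
    constructor
    · intro h
      filter_upwards [h] with v hv
      rw [h1] at hv
      have h3 := h2 v
      field_simp at hv
      exact hv
    · intro h
      filter_upwards [h] with v hv
      rw [h1, hv, mul_inv_cancel₀ (h2 v)]
  have main : ∀ g : κ → ℂ, (∀ k, ‖g k‖ = 1) → (∀ e, R e → G g e = 1) →
      ‖∑ k, (-(m k) : ℂ) * (g k)⁻¹‖ ≤ s := by
    intro g hg hg1
    have hD : Dat nm 𝒰 χ g T (fun k => (-(m k) : ℂ)) s R :=
      { sys := hS
        unit := fun k p => (hχ k).1 p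
        gunit := hg
        bd := hT
        mean := fun e => by
          split_ifs with he
          · exact mean_one he hS
          · exact (Hk.X hχ e).mean he hS
        one := hg1
        coef := fun e => by
          obtain ⟨h1, h2⟩ := hm _ (Hk.X hχ e)
          by_cases hex : ∃ k, AE (X χ e) (χ k)
          · obtain ⟨k, hk⟩ := hex
            rw [Finset.sum_eq_single k]
            · rw [if_pos ((hdiff e k).2 hk)]
              exact h1 k hk
            · intro l _ hl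
              rw [if_neg]
              intro h3
              exact hne k l hl.symm (hk.symm.trans ((hdiff e l).1 h3))
            · intro h3
              exact absurd (Finset.mem_univ k) h3
          · push Not at hex
            rw [Finset.sum_eq_zero]
            · exact h2 hex
            · intro k _
              rw [if_neg fun h3 => hex k ((hdiff e k).1 h3)] }
    exact hD.sup hs
  constructor
  · have h1 := main (fun _ => 1) (fun _ => norm_one) fun e _ => by
      unfold G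
      simp
    have h2 : ∑ k, (-(m k) : ℂ) * ((1 : ℂ))⁻¹ = (((-∑ k, m k : ℤ) : ℝ) : ℂ) := by
      push_cast
      rw [← Finset.sum_neg_distrib]
      exact Finset.sum_congr rfl fun k _ => by rw [inv_one, mul_one]
    rw [h2, Complex.norm_real, Real.norm_eq_abs] at h1
    push_cast at h1 ⊢
    rwa [abs_neg] at h1
  · -- the relations are finitely generated
    set L : Submodule ℤ (κ → ℤ) :=
      { carrier := {e | R e}
        zero_mem' := by
          change AE (X χ 0) fun _ => 1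
          exact Filter.Eventually.of_forall fun v => by rw [X_eq]; unfold G; simp
        add_mem' := by
          intro e f he hf
          change AE (X χ (e + f)) fun _ => 1
          have he' : AE (X χ e) fun _ => 1 := he
          have hf' : AE (X χ f) fun _ => 1 := hf
          filter_upwards [he', hf'] with v h1 h2
          rw [X_eq, G_add (fun k => (hχ k).1 v), ← X_eq, ← X_eq, h1, h2, one_mul]
        smul_mem' := by
          intro c e he
          change AE (X χ (c • e)) fun _ => 1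
          have he' : AE (X χ e) fun _ => 1 := he
          filter_upwards [he'] with v h1
          rw [X_eq] at h1 ⊢
          unfold G at h1 ⊢
          have h2 : ∏ k, χ k v ^ (c • e) k = (∏ k, χ k v ^ e k) ^ c := by
            rw [← Finset.prod_zpow]
            refine Finset.prod_congr rfl fun k _ => ?_
            rw [Pi.smul_apply, smul_eq_mul, mul_comm, zpow_mul]
          rw [h2, h1, one_zpow] } with hL
    have hLfg : L.FG := IsNoetherian.noetherian L
    obtain ⟨S, hS'⟩ := hLfg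
    have hmem : ∀ e, e ∈ L ↔ R e := fun e => Iff.rfl
    have hall : ∀ᶠ v in cofinite, ∀ e ∈ S, X χ e v = 1 := by
      rw [Filter.eventually_all_finset]
      intro e he
      have h1 : e ∈ L := by
        rw [← hS']
        exact Submodule.subset_span he
      exact (hmem e).1 h1
    filter_upwards [hall] with v hv
    have hg : ∀ e, R e → G (fun k => χ k v) e = 1 := by
      intro e he
      have h1 : e ∈ Submodule.span ℤ (S : Set (κ → ℤ)) := by
        rw [hS']
        exact (hmem e).2 he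
      induction h1 using Submodule.span_induction with
      | mem x hx => exact hv x hx
      | zero => unfold G; simp
      | add x y hx hy ihx ihy =>
        rw [hS'] at hx hy
        rw [G_add (fun k => (hχ k).1 v), ihx ((hmem x).1 hx), ihy ((hmem y).1 hy), one_mul]
      | smul c x hx ihx =>
        rw [hS'] at hx
        have h2 := ihx ((hmem x).1 hx)
        unfold G at h2 ⊢
        have h3 : ∏ k, χ k v ^ (c • x) k = (∏ k, χ k v ^ x k) ^ c := by
          rw [← Finset.prod_zpow]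
          refine Finset.prod_congr rfl fun k _ => ?_
          rw [Pi.smul_apply, smul_eq_mul, mul_comm, zpow_mul]
        rw [h3, h2, one_zpow]
    have h1 := main (fun k => χ k v) (fun k => (hχ k).1 v) hg
    have h2 : ∑ k, (-(m k) : ℂ) * (χ k v)⁻¹ = -conj (∑ k, (m k : ℂ) * χ k v) := by
      rw [map_sum, ← Finset.sum_neg_distrib]
      refine Finset.sum_congr rfl fun k _ => ?_
      rw [map_mul, conj_unit' ((hχ k).1 v)]
      have : conj ((m k : ℤ) : ℂ) = ((m k : ℤ) : ℂ) := by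
        rw [← Complex.ofReal_intCast, Complex.conj_ofReal]
      rw [this]
      ring
    rw [h2, norm_neg, Complex.norm_conj] at h1
    exact h1

end

end Pool.Agent.HS37.HK
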