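import Pool.Agent.W540.BE.Size
import Pool.Agent.W353.L1.Trig

/-!
# Mean values along an ultrafilter
-/

set_option autoImplicit false

namespace Pool.Agent.HS37.HK

open Complex Filter Topology ComplexConjugate Pool.Agent.H341R2 Pool.Agent.W540.BE

section
variable {P : Type*}

/-- bounded real functions -/
def Bd (f : P → ℝ) : Prop := ∃ B : ℝ, ∀ p, |f p| ≤ B

theorem Bd.add {f g : P → ℝ} (hf : Bd f) (hg : Bd g) : Bd fun p => f p + g p := by
  obtain ⟨B, hB⟩ := hf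
  obtain ⟨C, hC⟩ := hg
  exact ⟨B + C, fun p => (abs_add_le _ _).trans (add_le_add (hB p) (hC p))⟩

theorem Bd.mul {f g : P → ℝ} (hf : Bd f) (hg : Bd g) : Bd fun p => f p * g p := by
  obtain ⟨B, hB⟩ := hf
  obtain ⟨C, hC⟩ := hg
  refine ⟨B * C, fun p => ?_⟩
  rw [abs_mul]
  exact mul_le_mul (hB p) (hC p) (abs_nonneg _) ((abs_nonneg _).trans (hB p))

theorem Bd.const (c : ℝ) : Bd fun _ : P => c := ⟨|c|, fun _ => le_rfl⟩

theorem Bd.const_mul {f : P → ℝ} (hf : Bd f) (c : ℝ) : Bd fun p => c * f p :=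
  (Bd.const c).mul hf

theorem Bd.sub {f g : P → ℝ} (hf : Bd f) (hg : Bd g) : Bd fun p => f p - g p := by
  have h := hf.add (hg.const_mul (-1))
  obtain ⟨B, hB⟩ := h
  refine ⟨B, fun p => ?_⟩
  have := hB p
  simp only [neg_one_mul, ← sub_eq_add_neg] at this
  exact this

theorem Bd.abs {f : P → ℝ} (hf : Bd f) : Bd fun p => |f p| := by
  obtain ⟨B, hB⟩ := hf
  exact ⟨B, fun p => by rw [abs_abs]; exact hB p⟩

theorem Bd.pow {f : P → ℝ} (hf : Bd f) (n : ℕ) : Bd fun p => f p ^ n := by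
  induction n with
  | zero => exact ⟨1, fun p => by simp⟩
  | succ n ih =>
    obtain ⟨B, hB⟩ := ih.mul hf
    refine ⟨B, fun p => ?_⟩
    have := hB p
    simp only [← pow_succ] at this
    exact this

theorem Bd.sum {κ : Type*} (K : Finset κ) {f : κ → P → ℝ} (hf : ∀ k ∈ K, Bd (f k)) :
    Bd fun p => ∑ k ∈ K, f k p := by
  classical
  induction K using Finset.induction_on with
  | empty => exact ⟨0, fun p => by simp⟩
  | insert a s ha ih =>
    obtain ⟨B, hB⟩ := (hf a (Finset.mem_insert_self a s)).add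
      (ih fun k hk => hf k (Finset.mem_insert_of_mem hk))
    refine ⟨B, fun p => ?_⟩
    simp only [Finset.sum_insert ha]
    exact hB p

theorem Bd.of_norm_re {g : P → ℂ} {B : ℝ} (h : ∀ p, ‖g p‖ ≤ B) : Bd fun p => (g p).re :=
  ⟨B, fun p => (Complex.abs_re_le_norm _).trans (h p)⟩

theorem Bd.of_norm_im {g : P → ℂ} {B : ℝ} (h : ∀ p, ‖g p‖ ≤ B) : Bd fun p => (g p).im :=
  ⟨B, fun p => (Complex.abs_im_le_norm _).trans (h p)⟩

/-- the system of primes and the ultrafilter -/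
structure Sys (N : P → ℕ) (𝒰 : Ultrafilter ℝ) : Prop where
  norm : NormSys N
  le : (𝒰 : Filter ℝ) ≤ 𝓝[>] 0
  one : Tendsto (fun ε : ℝ => (EP N ε fun _ => 1) / lam ε) (𝓝[>] 0) (𝓝 1)

variable {N : P → ℕ} {𝒰 : Ultrafilter ℝ}

/-- `y` is the mean value of `f` -/
def Av (N : P → ℕ) (𝒰 : Ultrafilter ℝ) (f : P → ℝ) (y : ℝ) : Prop :=
  Tendsto (fun ε : ℝ => EP N ε f / lam ε) 𝒰 (𝓝 y)

theorem Sys.pos (h : Sys N 𝒰) : ∀ᶠ ε : ℝ in (𝒰 : Filter ℝ), 0 < ε ∧ 0 < lam ε := by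
  have h1 : ∀ᶠ ε : ℝ in 𝓝[>] 0, 0 < ε ∧ 0 < lam ε := by
    filter_upwards [self_mem_nhdsWithin, lam_tendsto.eventually_gt_atTop 0] with ε h1 h2
    exact ⟨h1, h2⟩
  exact h1.filter_mono h.le

theorem Av.unique {f : P → ℝ} {y z : ℝ} (h : Av N 𝒰 f y) (h' : Av N 𝒰 f z) : y = z :=
  tendsto_nhds_unique h h'

theorem Sys.exists (h : Sys N 𝒰) {f : P → ℝ} (hf : Bd f) : ∃ y, Av N 𝒰 f y := by
  obtain ⟨B, hB⟩ := hf
  have h1 : ∀ᶠ ε : ℝ in (𝒰 : Filter ℝ), EP N ε f / lam ε ∈ Set.Icc (-(2 * |B|)) (2 * |B|) := by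
    have h2 : ∀ᶠ ε : ℝ in (𝒰 : Filter ℝ), (EP N ε fun _ => 1) / lam ε < 2 :=
      (h.one.eventually_lt_const (by norm_num : (1 : ℝ) < 2)).filter_mono h.le
    filter_upwards [h2, h.pos] with ε h3 h4
    obtain ⟨hε, hl⟩ := h4
    rw [div_lt_iff₀ hl] at h3
    have e1 : EP N ε f ≤ |B| * EP N ε fun _ => 1 :=
      EP_le h.norm hε hB fun p => (le_abs_self _).trans ((hB p).trans (le_abs_self B))
    have e2 : -(|B| * EP N ε fun _ => 1) ≤ EP N ε f := by
      have h7 := EP_le h.norm hε (φ := fun v => (-1) * f v) (B := B)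
        (fun v => by rw [abs_mul, abs_neg, abs_one, one_mul]; exact hB v) (b := |B|)
        (fun v => by
          have h8 := neg_abs_le (f v)
          have h9 := (hB v).trans (le_abs_self B)
          linarith)
      rw [EP_const_mul] at h7
      linarith
    have e3 : |B| * (EP N ε fun _ => 1) ≤ (2 * |B|) * lam ε := by
      calc _ ≤ |B| * (2 * lam ε) := mul_le_mul_of_nonneg_left h3.le (abs_nonneg _)
        _ = _ := by ring
    constructor
    · rw [le_div_iff₀ hl]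
      linarith
    · rw [div_le_iff₀ hl]
      linarith
  have hmem : (𝒰.map (fun ε : ℝ => EP N ε f / lam ε) : Filter ℝ) ≤
      𝓟 (Set.Icc (-(2 * |B|)) (2 * |B|)) := by
    rw [le_principal_iff]
    exact h1
  obtain ⟨y, -, hy⟩ := isCompact_Icc.ultrafilter_le_nhds _ hmem
  exact ⟨y, hy⟩

theorem Av.const_mul {f : P → ℝ} {y : ℝ} (h : Av N 𝒰 f y) (c : ℝ) :
    Av N 𝒰 (fun p => c * f p) (c * y) := by
  unfold Av at h ⊢
  refine (h.const_mul c).congr fun ε => ?_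
  rw [EP_const_mul, mul_div_assoc]

theorem Av.add (hS : Sys N 𝒰) {f g : P → ℝ} {y z : ℝ} (hf : Bd f) (hg : Bd g)
    (h : Av N 𝒰 f y) (h' : Av N 𝒰 g z) : Av N 𝒰 (fun p => f p + g p) (y + z) := by
  obtain ⟨B, hB⟩ := hf
  obtain ⟨C, hC⟩ := hg
  unfold Av at *
  refine (Tendsto.add h h').congr' ?_
  filter_upwards [hS.pos] with ε h1
  rw [EP_add hS.norm h1.1 hB hC, add_div]

theorem Av.one (hS : Sys N 𝒰) : Av N 𝒰 (fun _ => 1) 1 := hS.one.mono_left hS.le

theorem Av.congr {f g : P → ℝ} {y z : ℝ} (h : Av N 𝒰 f y) (he : ∀ p, f p = g p) (hy : y = z) :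
    Av N 𝒰 g z := by
  have : f = g := funext he
  subst this
  subst hy
  exact h

theorem Av.const (hS : Sys N 𝒰) (c : ℝ) : Av N 𝒰 (fun _ => c) c :=
  ((Av.one hS).const_mul c).congr (fun _ => mul_one c) (mul_one c)

theorem Av.sub (hS : Sys N 𝒰) {f g : P → ℝ} {y z : ℝ} (hf : Bd f) (hg : Bd g)
    (h : Av N 𝒰 f y) (h' : Av N 𝒰 g z) : Av N 𝒰 (fun p => f p - g p) (y - z) :=
  (Av.add hS hf (hg.const_mul (-1)) h (h'.const_mul (-1))).congr (fun p => by ring) (by ring)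

theorem Av.sum (hS : Sys N 𝒰) {κ : Type*} (K : Finset κ) {f : κ → P → ℝ} {y : κ → ℝ}
    (hf : ∀ k ∈ K, Bd (f k)) (h : ∀ k ∈ K, Av N 𝒰 (f k) (y k)) :
    Av N 𝒰 (fun p => ∑ k ∈ K, f k p) (∑ k ∈ K, y k) := by
  classical
  induction K using Finset.induction_on with
  | empty => exact (Av.const hS 0).congr (fun p => by simp) (by simp)
  | insert a s ha ih =>
    refine (Av.add hS (hf a (Finset.mem_insert_self a s))
      (Bd.sum s fun k hk => hf k (Finset.mem_insert_of_mem hk))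
      (h a (Finset.mem_insert_self a s)) (ih (fun k hk => hf k (Finset.mem_insert_of_mem hk))
        fun k hk => h k (Finset.mem_insert_of_mem hk))).congr (fun p => ?_) ?_
    · rw [Finset.sum_insert ha]
    · rw [Finset.sum_insert ha]

theorem Av.nonneg (hS : Sys N 𝒰) {f : P → ℝ} {y : ℝ} (h : Av N 𝒰 f y) (h0 : ∀ p, 0 ≤ f p) :
    0 ≤ y := by
  refine ge_of_tendsto h ?_
  filter_upwards [hS.pos] with ε h1
  exact div_nonneg (EP_nonneg h0) h1.2.le

theorem Av.mono (hS : Sys N 𝒰) {f g : P → ℝ} {y z : ℝ} (hf : Bd f) (hg : Bd g)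
    (h : Av N 𝒰 f y) (h' : Av N 𝒰 g z) (hle : ∀ p, f p ≤ g p) : y ≤ z := by
  have := Av.nonneg hS (Av.sub hS hg hf h' h) fun p => sub_nonneg.2 (hle p)
  linarith

/-- complex mean value -/
def AvC (N : P → ℕ) (𝒰 : Ultrafilter ℝ) (g : P → ℂ) (z : ℂ) : Prop :=
  Av N 𝒰 (fun p => (g p).re) z.re ∧ Av N 𝒰 (fun p => (g p).im) z.im

/-- bounded complex functions -/
def BdC (g : P → ℂ) : Prop := ∃ B : ℝ, ∀ p, ‖g p‖ ≤ B

theorem BdC.re {g : P → ℂ} (h : BdC g) : Bd fun p => (g p).re :=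
  h.elim fun _ hB => Bd.of_norm_re hB

theorem BdC.im {g : P → ℂ} (h : BdC g) : Bd fun p => (g p).im :=
  h.elim fun _ hB => Bd.of_norm_im hB

theorem BdC.mul {f g : P → ℂ} (hf : BdC f) (hg : BdC g) : BdC fun p => f p * g p := by
  obtain ⟨B, hB⟩ := hf
  obtain ⟨C, hC⟩ := hg
  refine ⟨B * C, fun p => ?_⟩
  rw [norm_mul]
  exact mul_le_mul (hB p) (hC p) (norm_nonneg _) ((norm_nonneg _).trans (hB p))

theorem BdC.add {f g : P → ℂ} (hf : BdC f) (hg : BdC g) : BdC fun p => f p + g p := by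
  obtain ⟨B, hB⟩ := hf
  obtain ⟨C, hC⟩ := hg
  exact ⟨B + C, fun p => (norm_add_le _ _).trans (add_le_add (hB p) (hC p))⟩

theorem BdC.const (c : ℂ) : BdC fun _ : P => c := ⟨‖c‖, fun _ => le_rfl⟩

theorem BdC.conj {g : P → ℂ} (h : BdC g) : BdC fun p => conj (g p) :=
  h.elim fun B hB => ⟨B, fun p => by rw [Complex.norm_conj]; exact hB p⟩

theorem BdC.ofReal {f : P → ℝ} (h : Bd f) : BdC fun p => (f p : ℂ) :=
  h.elim fun B hB => ⟨B, fun p => by rw [Complex.norm_real]; exact hB p⟩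

theorem BdC.sum {κ : Type*} (K : Finset κ) {f : κ → P → ℂ} (hf : ∀ k ∈ K, BdC (f k)) :
    BdC fun p => ∑ k ∈ K, f k p := by
  classical
  induction K using Finset.induction_on with
  | empty => exact ⟨0, fun p => by simp⟩
  | insert a s ha ih =>
    obtain ⟨B, hB⟩ := (hf a (Finset.mem_insert_self a s)).add
      (ih fun k hk => hf k (Finset.mem_insert_of_mem hk))
    refine ⟨B, fun p => ?_⟩
    simp only [Finset.sum_insert ha]
    exact hB p

theorem AvC.const_mul (hS : Sys N 𝒰) {g : P → ℂ} {z : ℂ} (hg : BdC g) (h : AvC N 𝒰 g z) (c : ℂ) :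
    AvC N 𝒰 (fun p => c * g p) (c * z) := by
  constructor
  · refine (Av.sub hS (hg.re.const_mul c.re) (hg.im.const_mul c.im) (h.1.const_mul c.re)
      (h.2.const_mul c.im)).congr (fun p => ?_) ?_
    · rw [Complex.mul_re]
    · rw [Complex.mul_re]
  · refine (Av.add hS (hg.im.const_mul c.re) (hg.re.const_mul c.im) (h.2.const_mul c.re)
      (h.1.const_mul c.im)).congr (fun p => ?_) ?_
    · rw [Complex.mul_im]
    · rw [Complex.mul_im]

theorem AvC.congr {f g : P → ℂ} {y z : ℂ} (h : AvC N 𝒰 f y) (he : ∀ p, f p = g p) (hy : y = z) :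
    AvC N 𝒰 g z := by
  have : f = g := funext he
  subst this
  subst hy
  exact h

theorem AvC.add (hS : Sys N 𝒰) {f g : P → ℂ} {y z : ℂ} (hf : BdC f) (hg : BdC g)
    (h : AvC N 𝒰 f y) (h' : AvC N 𝒰 g z) : AvC N 𝒰 (fun p => f p + g p) (y + z) :=
  ⟨(Av.add hS hf.re hg.re h.1 h'.1).congr (fun p => by simp) (by simp),
    (Av.add hS hf.im hg.im h.2 h'.2).congr (fun p => by simp) (by simp)⟩

theorem AvC.const (hS : Sys N 𝒰) (c : ℂ) : AvC N 𝒰 (fun _ => c) c :=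
  ⟨Av.const hS c.re, Av.const hS c.im⟩

theorem AvC.conj {g : P → ℂ} {z : ℂ} (h : AvC N 𝒰 g z) :
    AvC N 𝒰 (fun p => conj (g p)) (conj z) :=
  ⟨h.1.congr (fun p => by simp) (by simp),
    (h.2.const_mul (-1)).congr (fun p => by simp) (by simp)⟩

theorem AvC.sum (hS : Sys N 𝒰) {κ : Type*} (K : Finset κ) {f : κ → P → ℂ} {y : κ → ℂ}
    (hf : ∀ k ∈ K, BdC (f k)) (h : ∀ k ∈ K, AvC N 𝒰 (f k) (y k)) :
    AvC N 𝒰 (fun p => ∑ k ∈ K, f k p) (∑ k ∈ K, y k) := by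
  classical
  induction K using Finset.induction_on with
  | empty => exact (AvC.const hS 0).congr (fun p => by simp) (by simp)
  | insert a s ha ih =>
    refine (AvC.add hS (hf a (Finset.mem_insert_self a s))
      (BdC.sum s fun k hk => hf k (Finset.mem_insert_of_mem hk))
      (h a (Finset.mem_insert_self a s)) (ih (fun k hk => hf k (Finset.mem_insert_of_mem hk))
        fun k hk => h k (Finset.mem_insert_of_mem hk))).congr (fun p => ?_) ?_
    · rw [Finset.sum_insert ha]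
    · rw [Finset.sum_insert ha]

theorem AvC.unique {g : P → ℂ} {y z : ℂ} (h : AvC N 𝒰 g y) (h' : AvC N 𝒰 g z) : y = z :=
  Complex.ext (h.1.unique h'.1) (h.2.unique h'.2)

theorem Sys.existsC (hS : Sys N 𝒰) {g : P → ℂ} (hg : BdC g) : ∃ z, AvC N 𝒰 g z := by
  obtain ⟨a, ha⟩ := hS.exists hg.re
  obtain ⟨b, hb⟩ := hS.exists hg.im
  exact ⟨⟨a, b⟩, ha, hb⟩

end

end Pool.Agent.HS37.HK
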