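import Pool.Agent.HS37.HK.Branch
import Pool.Agent.Y773.HK.Eul
import Pool.Agent.Y773.HG.Unf3

/-!
# The primes of a number field, and Euler products over them
-/

set_option autoImplicit false

namespace Pool.Agent.HS37.HK

open Complex Filter Topology ComplexConjugate Pool.Agent.H341R2 Pool.Agent.W540.BE Polynomial
open NumberField IsDedekindDomain
open Pool.Agent.Y773 (LI zz hasSum_log)
open Pool.Agent.Y772.DK (LA ee LI_eq_exp)

/-! ## local factors -/

/-- the logarithm of a local factor -/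
noncomputable def MG (s : Multiset ℂ) (x : ℝ) : ℂ :=
  (s.map fun β => -Complex.log (1 - β * x)).sum

theorem MG_zero (x : ℝ) : MG 0 x = 0 := rfl

theorem MG_cons (β : ℂ) (s : Multiset ℂ) (x : ℝ) :
    MG (β ::ₘ s) x = -Complex.log (1 - β * x) + MG s x := by
  unfold MG
  rw [Multiset.map_cons, Multiset.sum_cons]

theorem norm_small {β : ℂ} (hβ : ‖β‖ ≤ 1) {x : ℝ} (h0 : 0 ≤ x) (h1 : x ≤ 1 / 2) :
    ‖β * x‖ ≤ x ∧ ‖β * x‖ ≤ 1 / 2 := by
  have : ‖β * x‖ ≤ x := by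
    rw [norm_mul, Complex.norm_real, Real.norm_of_nonneg h0]
    exact mul_le_of_le_one_left h0 hβ
  exact ⟨this, this.trans h1⟩

theorem one_sub_ne {β : ℂ} (hβ : ‖β‖ ≤ 1) {x : ℝ} (h0 : 0 ≤ x) (h1 : x ≤ 1 / 2) :
    1 - β * x ≠ 0 := by
  intro h
  have h2 : β * x = 1 := by linear_combination -h
  have h3 := (norm_small hβ h0 h1).2
  rw [h2, norm_one] at h3
  norm_num at h3

theorem exp_MG {s : Multiset ℂ} (hs : ∀ β ∈ s, ‖β‖ ≤ 1) {x : ℝ} (h0 : 0 ≤ x) (h1 : x ≤ 1 / 2) :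
    cexp (MG s x) = ((s.map fun β : ℂ => 1 - β * (x : ℂ)).prod)⁻¹ := by
  induction s using Multiset.induction_on with
  | empty => simp [MG_zero]
  | cons β s ih =>
    have hβ := hs β (Multiset.mem_cons_self β s)
    rw [MG_cons, Complex.exp_add, ih fun γ hγ => hs γ (Multiset.mem_cons_of_mem hγ),
      Complex.exp_neg, Complex.exp_log (one_sub_ne hβ h0 h1), Multiset.map_cons,
      Multiset.prod_cons, mul_inv]

theorem MG_sub {s : Multiset ℂ} (hs : ∀ β ∈ s, ‖β‖ ≤ 1) {x : ℝ} (h0 : 0 ≤ x) (h1 : x ≤ 1 / 2) :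
    ‖MG s x - s.sum * x‖ ≤ Multiset.card s * x ^ 2 := by
  induction s using Multiset.induction_on with
  | empty => simp [MG_zero]
  | cons β s ih =>
    have hβ := hs β (Multiset.mem_cons_self β s)
    have h2 := ih fun γ hγ => hs γ (Multiset.mem_cons_of_mem hγ)
    have h3 := norm_neg_log_sub_le (norm_small hβ h0 h1).2
    have h4 := (norm_small hβ h0 h1).1
    rw [MG_cons, Multiset.sum_cons, Multiset.card_cons]
    have h5 : -Complex.log (1 - β * x) + MG s x - (β + s.sum) * x =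
        (-Complex.log (1 - β * x) - β * x) + (MG s x - s.sum * x) := by ring
    rw [h5]
    push_cast
    have h6 : ‖β * (x : ℂ)‖ ^ 2 ≤ x ^ 2 := pow_le_pow_left₀ (norm_nonneg _) h4 2
    calc _ ≤ ‖-Complex.log (1 - β * x) - β * x‖ + ‖MG s x - s.sum * x‖ := norm_add_le _ _
      _ ≤ x ^ 2 + Multiset.card s * x ^ 2 := add_le_add (h3.trans h6) h2
      _ = _ := by ring

theorem norm_sum_le {s : Multiset ℂ} (hs : ∀ β ∈ s, ‖β‖ ≤ 1) : ‖s.sum‖ ≤ Multiset.card s := by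
  induction s using Multiset.induction_on with
  | empty => simp
  | cons β s ih =>
    rw [Multiset.sum_cons, Multiset.card_cons]
    push_cast
    have h1 := hs β (Multiset.mem_cons_self β s)
    have h2 := ih fun γ hγ => hs γ (Multiset.mem_cons_of_mem hγ)
    have h3 := norm_add_le β s.sum
    linarith

theorem MG_le {s : Multiset ℂ} (hs : ∀ β ∈ s, ‖β‖ ≤ 1) {x : ℝ} (h0 : 0 ≤ x) (h1 : x ≤ 1 / 2) :
    ‖MG s x‖ ≤ 2 * Multiset.card s * x := by
  have h2 := MG_sub hs h0 h1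
  have h3 := norm_sum_le hs
  have h4 : ‖s.sum * (x : ℂ)‖ ≤ Multiset.card s * x := by
    rw [norm_mul, Complex.norm_real, Real.norm_of_nonneg h0]
    exact mul_le_mul_of_nonneg_right h3 h0
  have h5 : MG s x = (MG s x - s.sum * x) + s.sum * x := by ring
  have h6 : (Multiset.card s : ℝ) * x ^ 2 ≤ Multiset.card s * x := by
    refine mul_le_mul_of_nonneg_left ?_ (Nat.cast_nonneg _)
    nlinarith
  rw [h5]
  calc _ ≤ ‖MG s x - s.sum * x‖ + ‖s.sum * (x : ℂ)‖ := norm_add_le _ _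
    _ ≤ Multiset.card s * x ^ 2 + Multiset.card s * x := add_le_add h2 h4
    _ ≤ _ := by linarith

theorem MG_cont {s : Multiset ℂ} (hs : ∀ β ∈ s, ‖β‖ ≤ 1) :
    ContinuousOn (MG s) (Set.Icc 0 (1 / 2)) := by
  induction s using Multiset.induction_on with
  | empty =>
    have : MG 0 = fun _ => 0 := by
      funext x
      rfl
    rw [this]
    exact continuousOn_const
  | cons β s ih =>
    have hβ := hs β (Multiset.mem_cons_self β s)
    have h1 : MG (β ::ₘ s) = fun x : ℝ => -Complex.log (1 - β * (x : ℂ)) + MG s x := by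
      funext x
      exact MG_cons β s x
    rw [h1]
    refine ContinuousOn.add ?_ (ih fun γ hγ => hs γ (Multiset.mem_cons_of_mem hγ))
    refine (ContinuousOn.clog ?_ ?_).neg
    · exact (continuous_const.sub (continuous_const.mul Complex.continuous_ofReal)).continuousOn
    · intro x hx
      left
      have h2 := (norm_small hβ hx.1 hx.2).2
      have h3 := (Complex.abs_re_le_norm (β * x)).trans h2
      have h4 := (abs_le.1 h3).2
      rw [Complex.sub_re, Complex.one_re]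
      linarith

/-! ## the primes -/

section
variable {K : Type} [Field K] [NumberField K]

/-- the norm of a prime -/
noncomputable def nm (v : HeightOneSpectrum (𝓞 K)) : ℕ := Ideal.absNorm v.asIdeal

theorem two_le_nm (v : HeightOneSpectrum (𝓞 K)) : 2 ≤ nm v := by
  unfold nm
  have h1 : Ideal.absNorm v.asIdeal ≠ 0 := fun h => v.ne_bot (Ideal.absNorm_eq_zero_iff.mp h)
  have h2 : Ideal.absNorm v.asIdeal ≠ 1 := fun h =>
    v.isPrime.ne_top (Ideal.absNorm_eq_one_iff.mp h)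
  omega

theorem nsys : NormSys (nm (K := K)) where
  two_le := two_le_nm
  summable r hr := by
    have h := Pool.Agent.Y773.G.summable_ideals (K := K) (σ := -r) (by linarith)
    rw [neg_neg] at h
    exact h.comp_injective (i := fun v : HeightOneSpectrum (𝓞 K) =>
      (⟨v.asIdeal, v.ne_bot⟩ : {I : Ideal (𝓞 K) // I ≠ ⊥}))
      (fun v w h => HeightOneSpectrum.ext (congrArg (fun I : {I : Ideal (𝓞 K) // I ≠ ⊥} => I.1) h))

theorem nm_small (v : HeightOneSpectrum (𝓞 K)) {ε : ℝ} (hε : 0 ≤ ε) :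
    0 ≤ ((nm v : ℝ) ^ (-(1 + ε))) ∧ ((nm v : ℝ) ^ (-(1 + ε))) ≤ 1 / 2 := by
  refine ⟨by positivity, ?_⟩
  have h2 : (2 : ℝ) ≤ nm v := by exact_mod_cast two_le_nm v
  calc (nm v : ℝ) ^ (-(1 + ε)) ≤ (nm v : ℝ) ^ (-1 : ℝ) :=
        Real.rpow_le_rpow_of_exponent_le (by linarith) (by linarith)
    _ = (nm v : ℝ)⁻¹ := Real.rpow_neg_one _
    _ ≤ 1 / 2 := by
        rw [one_div]
        exact inv_anti₀ (by norm_num) h2

theorem nm_sq (v : HeightOneSpectrum (𝓞 K)) {ε : ℝ} (hε : 0 ≤ ε) :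
    ((nm v : ℝ) ^ (-(1 + ε))) ^ 2 ≤ (nm v : ℝ) ^ (-2 : ℝ) := by
  have h2 : (2 : ℝ) ≤ nm v := by exact_mod_cast two_le_nm v
  rw [← Real.rpow_natCast, ← Real.rpow_mul (by linarith)]
  refine Real.rpow_le_rpow_of_exponent_le (by linarith) ?_
  push_cast
  linarith

/-- the primes as prime ideals -/
def eqv : HeightOneSpectrum (𝓞 K) ≃ {𝔭 : Ideal (𝓞 K) // Prime 𝔭} where
  toFun v := ⟨v.asIdeal, v.prime⟩
  invFun 𝔭 := ⟨𝔭.1, Ideal.isPrime_of_prime 𝔭.2, 𝔭.2.ne_zero⟩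
  left_inv _ := rfl
  right_inv _ := rfl

/-- the value of a function on the ideals, twisted by a power of the norm -/
noncomputable def val (ψ : Ideal (𝓞 K) →*₀ ℂ) (τ : ℝ) (v : HeightOneSpectrum (𝓞 K)) : ℂ :=
  ψ v.asIdeal * (nm v : ℂ) ^ (-(τ * I))

theorem norm_tw (v : HeightOneSpectrum (𝓞 K)) (τ : ℝ) : ‖(nm v : ℂ) ^ (-(τ * I))‖ = 1 := by
  rw [Complex.norm_natCast_cpow_of_pos (by have := two_le_nm v; omega)]
  simp

theorem norm_val {ψ : Ideal (𝓞 K) →*₀ ℂ} (hψ : ∀ 𝔞, ‖ψ 𝔞‖ ≤ 1) (τ : ℝ)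
    (v : HeightOneSpectrum (𝓞 K)) : ‖val ψ τ v‖ ≤ 1 := by
  unfold val
  rw [norm_mul, norm_tw, mul_one]
  exact hψ _

theorem cpow_split (v : HeightOneSpectrum (𝓞 K)) (τ ε : ℝ) :
    (nm v : ℂ) ^ (-((1 : ℂ) + τ * I + ε)) =
      (nm v : ℂ) ^ (-(τ * I)) * ((nm v : ℝ) ^ (-(1 + ε)) : ℝ) := by
  have h0 : (nm v : ℂ) ≠ 0 := by
    have := two_le_nm v
    exact_mod_cast (by omega : nm v ≠ 0)
  have h1 : (-((1 : ℂ) + τ * I + ε)) = (-(τ * I)) + ((-(1 + ε) : ℝ) : ℂ) := by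
    push_cast
    ring
  rw [h1, Complex.cpow_add _ _ h0]
  congr 1
  rw [Complex.ofReal_cpow (Nat.cast_nonneg _), Complex.ofReal_natCast]

/-- the Euler product of a completely multiplicative function -/
theorem LI_prod {ψ : Ideal (𝓞 K) →*₀ ℂ} (hψ : ∀ 𝔞, ‖ψ 𝔞‖ ≤ 1) (τ : ℝ) {ε : ℝ} (hε : 0 < ε) :
    LI ψ (1 + τ * I + ε) = ∏' v : HeightOneSpectrum (𝓞 K),
      cexp (MG {val ψ τ v} ((nm v : ℝ) ^ (-(1 + ε)))) := by
  have hs : 1 < ((1 : ℂ) + τ * I + ε).re := by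
    simp
    exact hε
  have h1 := (eqv (K := K)).hasSum_iff.2 (hasSum_log hψ hs)
  have h2 := h1.cexp
  rw [← LI_eq_exp ψ hψ hs] at h2
  rw [← h2.tprod_eq]
  refine tprod_congr fun v => ?_
  simp only [Function.comp_apply]
  congr 1
  unfold MG
  rw [Multiset.map_singleton, Multiset.sum_singleton]
  congr 3
  change zz ψ _ v.asIdeal = _
  unfold zz val
  have h3 := cpow_split v τ ε
  unfold nm at h3 ⊢
  rw [h3]
  ring

end

end Pool.Agent.HS37.HK
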