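import Pool.Agent.HS37.HK.Nf
import Pool.Agent.HS37.HK.Abs

/-!
# Euler products over the primes of a number field, near the edge
-/

set_option autoImplicit false

namespace Pool.Agent.HS37.HK

open Complex Filter Topology ComplexConjugate Pool.Agent.H341R2 Pool.Agent.W540.BE Polynomial
open NumberField IsDedekindDomain

section
variable {K : Type} [Field K] [NumberField K]

/-- the Euler product -/
noncomputable def LF (B : HeightOneSpectrum (𝓞 K) → ℂ[X]) (s : ℂ) : ℂ :=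
  ∏' v : HeightOneSpectrum (𝓞 K), ((B v).eval ((nm v : ℂ) ^ (-s)))⁻¹

/-- Euler factors -/
def EF (w : ℝ) (R : ℕ) (γ : HeightOneSpectrum (𝓞 K) → Multiset ℂ)
    (B : HeightOneSpectrum (𝓞 K) → ℂ[X]) : Prop :=
  (∀ᶠ v in cofinite, (∀ α ∈ γ v, ‖α‖ ≤ (nm v : ℝ) ^ w) ∧ Multiset.card (γ v) ≤ R ∧
    ∀ z : ℂ, (B v).eval z = ((γ v).map fun α => 1 - α * z).prod) ∧
  ∀ v, (B v).eval ((nm v : ℂ) ^ (-((w : ℂ) + 1))) ≠ 0

/-- the normalised eigenvalues -/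
noncomputable def nrm (w : ℝ) (v : HeightOneSpectrum (𝓞 K)) (s : Multiset ℂ) : Multiset ℂ :=
  s.map fun α => α * (nm v : ℂ) ^ (-(w : ℂ))

theorem nm_ne (v : HeightOneSpectrum (𝓞 K)) : (nm v : ℂ) ≠ 0 := by
  have := two_le_nm v
  exact_mod_cast (by omega : nm v ≠ 0)

theorem norm_cw (w : ℝ) (v : HeightOneSpectrum (𝓞 K)) :
    ‖(nm v : ℂ) ^ (-(w : ℂ))‖ = (nm v : ℝ) ^ (-w) := by
  rw [Complex.norm_natCast_cpow_of_pos (by have := two_le_nm v; omega)]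
  simp

theorem nrm_le {w : ℝ} {v : HeightOneSpectrum (𝓞 K)} {s : Multiset ℂ}
    (hs : ∀ α ∈ s, ‖α‖ ≤ (nm v : ℝ) ^ w) : ∀ β ∈ nrm w v s, ‖β‖ ≤ 1 := by
  intro β hβ
  obtain ⟨α, hα, rfl⟩ := Multiset.mem_map.1 hβ
  have h2 : (0 : ℝ) < nm v := by
    have := two_le_nm v
    exact_mod_cast (by omega : 0 < nm v)
  rw [norm_mul, norm_cw]
  calc ‖α‖ * (nm v : ℝ) ^ (-w) ≤ (nm v : ℝ) ^ w * (nm v : ℝ) ^ (-w) :=
        mul_le_mul_of_nonneg_right (hs α hα) (by positivity)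
    _ = 1 := by rw [← Real.rpow_add h2, add_neg_cancel, Real.rpow_zero]

theorem nrm_card (w : ℝ) (v : HeightOneSpectrum (𝓞 K)) (s : Multiset ℂ) :
    Multiset.card (nrm w v s) = Multiset.card s := Multiset.card_map _ _

theorem nrm_sum (w : ℝ) (v : HeightOneSpectrum (𝓞 K)) (s : Multiset ℂ) :
    (nrm w v s).sum = s.sum * (nm v : ℂ) ^ (-(w : ℂ)) := by
  unfold nrm
  rw [Multiset.sum_map_mul_right, Multiset.map_id']

theorem cpow_w (v : HeightOneSpectrum (𝓞 K)) (w ε : ℝ) :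
    (nm v : ℂ) ^ (-((w : ℂ) + 1 + ε)) =
      (nm v : ℂ) ^ (-(w : ℂ)) * ((nm v : ℝ) ^ (-(1 + ε)) : ℝ) := by
  have h1 : (-((w : ℂ) + 1 + ε)) = (-(w : ℂ)) + ((-(1 + ε) : ℝ) : ℂ) := by
    push_cast
    ring
  rw [h1, Complex.cpow_add _ _ (nm_ne v)]
  congr 1
  rw [Complex.ofReal_cpow (Nat.cast_nonneg _), Complex.ofReal_natCast]

theorem exp_loc {w : ℝ} {v : HeightOneSpectrum (𝓞 K)} {s : Multiset ℂ}
    (hs : ∀ α ∈ s, ‖α‖ ≤ (nm v : ℝ) ^ w) {B : ℂ[X]}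
    (hB : ∀ z : ℂ, B.eval z = (s.map fun α => 1 - α * z).prod) {ε : ℝ} (hε : 0 < ε) :
    cexp (MG (nrm w v s) ((nm v : ℝ) ^ (-(1 + ε)))) =
      (B.eval ((nm v : ℂ) ^ (-((w : ℂ) + 1 + ε))))⁻¹ := by
  have h1 := nm_small v hε.le
  rw [exp_MG (nrm_le hs) h1.1 h1.2, hB, cpow_w]
  unfold nrm
  rw [Multiset.map_map]
  congr 3
  funext α
  simp only [Function.comp_apply]
  ring

/-- everything about the Euler product -/
theorem ef_data {w : ℝ} {R : ℕ} {γ : HeightOneSpectrum (𝓞 K) → Multiset ℂ}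
    {B : HeightOneSpectrum (𝓞 K) → ℂ[X]} (h : EF w R γ B)
    {a : HeightOneSpectrum (𝓞 K) → ℂ} {M : ℝ} (ha : ∀ v, ‖a v‖ ≤ M)
    (hag : ∀ᶠ v in cofinite, a v = (γ v).sum * (nm v : ℂ) ^ (-(w : ℂ))) :
    (∃ C : ℝ, ∀ᶠ ε : ℝ in 𝓝[>] 0, LF B ((w : ℂ) + 1 + ε) ≠ 0 ∧
      |(EP nm ε fun v => (a v).re) - Real.log ‖LF B ((w : ℂ) + 1 + ε)‖| ≤ C) ∧
    ∀ {𝒰 : Ultrafilter ℝ}, Sys (nm (K := K)) 𝒰 → ∀ {Λ : ℂ → ℂ}, MeromorphicAt Λ ((w : ℂ) + 1) →
      ∀ {m : ℤ}, meromorphicOrderAt Λ ((w : ℂ) + 1) = m →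
      (∀ᶠ ε : ℝ in 𝓝[>] 0, Λ ((w : ℂ) + 1 + ε) = LF B ((w : ℂ) + 1 + ε)) →
      AvC nm 𝒰 a (-m) := by
  classical
  set Good : HeightOneSpectrum (𝓞 K) → Prop := fun v =>
    ((∀ α ∈ γ v, ‖α‖ ≤ (nm v : ℝ) ^ w) ∧ Multiset.card (γ v) ≤ R ∧
    ∀ z : ℂ, (B v).eval z = ((γ v).map fun α => 1 - α * z).prod) ∧
    a v = (γ v).sum * (nm v : ℂ) ^ (-(w : ℂ)) with hGood
  have hfin : {v | ¬ Good v}.Finite := by
    have h1 := h.1.and hag
    rwa [Filter.eventually_cofinite] at h1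
  set a' : HeightOneSpectrum (𝓞 K) → ℂ := fun v => if Good v then a v else 0 with ha'
  have hM : 0 ≤ |M| := abs_nonneg M
  have ha'b : ∀ v, ‖a' v‖ ≤ |M| := by
    intro v
    rw [ha']
    simp only
    split_ifs
    · exact (ha v).trans (le_abs_self M)
    · rw [norm_zero]; exact hM
  have ha'0 : ∀ v, ¬ Good v → a' v = 0 := fun v hv => if_neg hv
  have hne : {v | a' v ≠ a v}.Finite := by
    refine hfin.subset fun v hv => ?_
    intro hg
    exact hv (if_pos hg)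
  set G : ℝ → HeightOneSpectrum (𝓞 K) → ℂ := fun ε v =>
    MG (nrm w v (γ v)) ((nm v : ℝ) ^ (-(1 + ε))) with hG
  have hGs : ∀ ε : ℝ, 0 < ε → ∀ v, Good v →
      ‖G ε v - a' v * ((nm v : ℝ) ^ (-(1 + ε)) : ℝ)‖ ≤ (2 * R : ℝ) * (nm v : ℝ) ^ (-2 : ℝ) := by
    intro ε hε v hv
    have h1 := nm_small v hε.le
    have h2 := MG_sub (nrm_le hv.1.1) h1.1 h1.2
    rw [nrm_sum, ← hv.2, nrm_card] at h2
    have h3 : a' v = a v := if_pos hv
    rw [h3]
    refine h2.trans ?_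
    have h4 : (Multiset.card (γ v) : ℝ) ≤ R := by exact_mod_cast hv.1.2.1
    have h5 : (0 : ℝ) ≤ R := Nat.cast_nonneg _
    refine mul_le_mul (by linarith) (nm_sq v hε.le) (sq_nonneg _) (by positivity)
  have hG1 : ∀ ε : ℝ, 0 < ε → ∀ v, Good v → ‖G ε v‖ ≤ (2 * R : ℝ) * (nm v : ℝ) ^ (-(1 + ε)) := by
    intro ε hε v hv
    have h1 := nm_small v hε.le
    have h2 := MG_le (nrm_le hv.1.1) h1.1 h1.2
    rw [nrm_card] at h2
    refine h2.trans (mul_le_mul_of_nonneg_right ?_ h1.1)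
    have h4 : (Multiset.card (γ v) : ℝ) ≤ R := by exact_mod_cast hv.1.2.1
    linarith
  have hGc : ∀ v, Good v → ContinuousOn (fun ε => G ε v) (Set.Ioi 0) := by
    intro v hv
    refine (MG_cont (nrm_le hv.1.1)).comp (cont_wt nsys v).continuousOn fun ε hε => ?_
    have hε' : (0 : ℝ) < ε := hε
    exact nm_small v hε'.le
  have hL : ∀ ε : ℝ, 0 < ε → LF B ((w : ℂ) + 1 + ε) = ∏' v : HeightOneSpectrum (𝓞 K),
      if Good v then cexp (G ε v) else ((B v).eval (((nm v : ℕ) : ℂ) ^ (-((w : ℂ) + 1 + ε))))⁻¹ := by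
    intro ε hε
    unfold LF
    refine tprod_congr fun v => ?_
    split_ifs with hv
    · exact (exp_loc hv.1.1 hv.1.2.2 hε).symm
    · rfl
  constructor
  · obtain ⟨C, hC⟩ := sizeP nsys hfin B ((w : ℂ) + 1) (fun v _ => h.2 v) a' ha'b ha'0 G hGs
      (L := fun ε => LF B ((w : ℂ) + 1 + ε)) hL
    refine ⟨C + ∑ v ∈ hne.toFinset, |(a v).re - (a' v).re|, ?_⟩
    filter_upwards [hC, self_mem_nhdsWithin] with ε h1 h2
    have hε : (0 : ℝ) < ε := h2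
    refine ⟨h1.1, ?_⟩
    have h3 := EP_fin (N := nm (K := K)) nsys hne.toFinset (fun v => (a v).re - (a' v).re)
      (fun v hv => by
        rw [Set.Finite.mem_toFinset, Set.mem_ofPred_eq, not_not] at hv
        rw [hv, sub_self]) hε
    have h4 : (EP nm ε fun v => (a v).re) = (EP nm ε fun v => (a' v).re) +
        EP nm ε fun v => (a v).re - (a' v).re := by
      rw [← EP_add nsys hε (B := |M|) (B' := |M| + |M|)
        (fun v => (Complex.abs_re_le_norm _).trans (ha'b v)) fun v => by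
          refine (abs_sub _ _).trans (add_le_add ?_ ?_)
          · exact (Complex.abs_re_le_norm _).trans ((ha v).trans (le_abs_self M))
          · exact (Complex.abs_re_le_norm _).trans (ha'b v)]
      congr 1
      funext v
      ring
    rw [h4]
    have h5 : (EP nm ε fun v => (a' v).re) + (EP nm ε fun v => (a v).re - (a' v).re) -
        Real.log ‖LF B ((w : ℂ) + 1 + ε)‖ = ((EP nm ε fun v => (a' v).re) -
        Real.log ‖LF B ((w : ℂ) + 1 + ε)‖) + EP nm ε fun v => (a v).re - (a' v).re := by ring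
    rw [h5]
    exact (abs_add_le _ _).trans (add_le_add h1.2 h3)
  · intro 𝒰 hS Λ hΛ m hm hΛL
    obtain ⟨C', hC'⟩ := sizeC nsys hfin B ((w : ℂ) + 1) (fun v _ => h.2 v) a' ha'b ha'0 G hGc
      hGs hG1 (L := fun ε => LF B ((w : ℂ) + 1 + ε)) (fun ε hε c hc => by
        have h1 := hL ε hε
        rw [h1]
        refine tprod_congr fun v => ?_
        split_ifs <;> rfl) hΛ hm hΛL
    have h1 := mean_of_log hS ha'b hC'
    exact AvC.congr_fin hS ⟨_, ha'b⟩ hne h1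

end

end Pool.Agent.HS37.HK
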